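import Pool.Agent.MP_b2c033_nt.U.Core

/-! The facts on averages over congruence quotients. -/

namespace Pool.Agent.MP_b2c033_nt.U

open CongruenceSubgroup
open scoped MatrixGroups

noncomputable section

namespace AvAux

theorem mem_iff (L : ℕ) (γ : SZ) : γ ∈ Gamma L ↔ γ 0 0 ≡ 1 [ZMOD L] ∧ γ 0 1 ≡ 0 [ZMOD L] ∧
    γ 1 0 ≡ 0 [ZMOD L] ∧ γ 1 1 ≡ 1 [ZMOD L] := by
  rw [Gamma_mem]
  simp only [← ZMod.intCast_eq_intCast_iff, Int.cast_one, Int.cast_zero]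

theorem inv_mul_mem (L : ℕ) (γ δ : SZ) : γ⁻¹ * δ ∈ Gamma L ↔ δ 0 0 ≡ γ 0 0 [ZMOD L] ∧
    δ 0 1 ≡ γ 0 1 [ZMOD L] ∧ δ 1 0 ≡ γ 1 0 [ZMOD L] ∧ δ 1 1 ≡ γ 1 1 [ZMOD L] := by
  rw [Gamma_mem', map_mul, map_inv, inv_mul_eq_one, eq_comm]
  simp only [← ZMod.intCast_eq_intCast_iff]
  simp [Matrix.SpecialLinearGroup.ext_iff, and_assoc]

theorem mono {L L' : ℕ} (h : L ∣ L') : Gamma L' ≤ Gamma L := by
  intro γ hγ
  rw [mem_iff] at hγ ⊢
  have h' : (L : ℤ) ∣ L' := Int.natCast_dvd_natCast.2 h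
  exact ⟨hγ.1.of_dvd h', hγ.2.1.of_dvd h', hγ.2.2.1.of_dvd h', hγ.2.2.2.of_dvd h'⟩

theorem modEq_mul {A B : ℕ} (h : A.Coprime B) {x y : ℤ} (h1 : x ≡ y [ZMOD A])
    (h2 : x ≡ y [ZMOD B]) : x ≡ y [ZMOD (A * B : ℕ)] := by
  push_cast
  exact (Int.modEq_and_modEq_iff_modEq_mul (by simpa using h)).1 ⟨h1, h2⟩

theorem mem_mul {A B : ℕ} (h : A.Coprime B) {γ : SZ} (h1 : γ ∈ Gamma A) (h2 : γ ∈ Gamma B) :
    γ ∈ Gamma (A * B) := by
  rw [mem_iff] at h1 h2 ⊢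
  exact ⟨modEq_mul h h1.1 h2.1, modEq_mul h h1.2.1 h2.2.1, modEq_mul h h1.2.2.1 h2.2.2.1,
    modEq_mul h h1.2.2.2 h2.2.2.2⟩

theorem exists_coprime (L c d : ℤ) (hc : c ≠ 0)
    (h : ∀ p : ℕ, p.Prime → (p : ℤ) ∣ c → (p : ℤ) ∣ d → ¬ (p : ℤ) ∣ L) :
    ∃ t : ℤ, IsCoprime c (d + t * L) := by
  classical
  refine ⟨∏ p ∈ c.natAbs.primeFactors.filter (fun p : ℕ => ¬ (p : ℤ) ∣ d), (p : ℤ), ?_⟩
  rw [Int.isCoprime_iff_gcd_eq_one]
  by_contra hne
  obtain ⟨p, hp, hd⟩ := Nat.exists_prime_and_dvd hne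
  have hp' : Prime (p : ℤ) := Nat.prime_iff_prime_int.1 hp
  have hd' : (p : ℤ) ∣ (Int.gcd c (d + (∏ p ∈ c.natAbs.primeFactors.filter
      (fun p : ℕ => ¬ (p : ℤ) ∣ d), (p : ℤ)) * L) : ℤ) := Int.natCast_dvd_natCast.2 hd
  have h1 := hd'.trans (Int.gcd_dvd_left _ _)
  have h2 := hd'.trans (Int.gcd_dvd_right _ _)
  by_cases hpd : (p : ℤ) ∣ d
  · have h3 := (dvd_add_right hpd).1 h2
    rcases hp'.dvd_or_dvd h3 with h4 | h4
    · obtain ⟨q, hq, hpq⟩ := (Prime.dvd_finsetProd_iff hp' _).1 h4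
      rw [Finset.mem_filter] at hq
      have : p = q := (Nat.prime_dvd_prime_iff_eq hp (Nat.prime_of_mem_primeFactors hq.1)).1
        (Int.natCast_dvd_natCast.1 hpq)
      exact hq.2 (this ▸ hpd)
    · exact h p hp h1 hpd h4
  · apply hpd
    have h3 : (p : ℤ) ∣ ∏ p ∈ c.natAbs.primeFactors.filter (fun p : ℕ => ¬ (p : ℤ) ∣ d),
        (p : ℤ) := by
      apply Finset.dvd_prod_of_mem
      rw [Finset.mem_filter, Nat.mem_primeFactors]
      exact ⟨⟨hp, Int.natCast_dvd.1 h1, by simpa using hc⟩, hpd⟩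
    exact (dvd_add_left (h3.mul_right L)).1 h2

theorem lift (L : ℕ) (a b c d : ℤ) (h : a * d - b * c ≡ 1 [ZMOD L]) : ∃ γ : SZ,
    γ 0 0 ≡ a [ZMOD L] ∧ γ 0 1 ≡ b [ZMOD L] ∧ γ 1 0 ≡ c [ZMOD L] ∧ γ 1 1 ≡ d [ZMOD L] := by
  rcases Nat.eq_zero_or_pos L with rfl | hL
  · have h' : a * d - b * c = 1 := by simpa [Int.ModEq] using h
    exact ⟨mkZ a b c d h', by simp⟩
  obtain ⟨c', hc0, hcc⟩ : ∃ c' : ℤ, c' ≠ 0 ∧ c' ≡ c [ZMOD L] := by
    by_cases hc : c = 0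
    · refine ⟨L, by exact_mod_cast hL.ne', ?_⟩
      rw [hc]
      exact Int.modEq_zero_iff_dvd.2 dvd_rfl
    · exact ⟨c, hc, Int.ModEq.refl _⟩
  have h' : a * d - b * c' ≡ 1 [ZMOD L] :=
    ((Int.ModEq.refl _).sub ((Int.ModEq.refl b).mul hcc)).trans h
  obtain ⟨t, u, v, huv⟩ := exists_coprime L c' d hc0 (by
    intro p hp h1 h2 h3
    have h4 : (p : ℤ) ∣ 1 - (a * d - b * c') := h3.trans h'.dvd
    have h5 : (p : ℤ) ∣ a * d - b * c' := (h2.mul_left a).sub (h1.mul_left b)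
    have h6 : (p : ℤ) ∣ 1 := by simpa using h4.add h5
    exact (Nat.prime_iff_prime_int.1 hp).not_dvd_one h6)
  obtain ⟨k, hk⟩ := h'.dvd
  refine ⟨mkZ (a + (k - a * t) * L * v) (b - (k - a * t) * L * u) c' (d + t * L) (by
    linear_combination (-1) * hk + (k - a * t) * L * huv), ?_, ?_, ?_, ?_⟩
  · simp only [mkZ_00]
    exact (Int.modEq_iff_dvd.2 ⟨-((k - a * t) * v), by ring⟩)
  · simp only [mkZ_01]
    exact (Int.modEq_iff_dvd.2 ⟨(k - a * t) * u, by ring⟩)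
  · exact hcc
  · simp only [mkZ_11]
    exact (Int.modEq_iff_dvd.2 ⟨-t, by ring⟩)

theorem crt (A B : ℕ) (γ γ' : SZ) (h : A.Coprime B) :
    ∃ δ : SZ, γ⁻¹ * δ ∈ Gamma A ∧ γ'⁻¹ * δ ∈ Gamma B := by
  obtain ⟨u, v, huv⟩ : IsCoprime (A : ℤ) B := Nat.isCoprime_iff_coprime.2 h
  have e1 : ∀ x y : ℤ, x * (v * B) + y * (u * A) ≡ x [ZMOD A] := fun x y =>
    Int.modEq_iff_dvd.2 ⟨(x - y) * u, by linear_combination (-x) * huv⟩
  have e2 : ∀ x y : ℤ, x * (v * B) + y * (u * A) ≡ y [ZMOD B] := fun x y =>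
    Int.modEq_iff_dvd.2 ⟨(y - x) * v, by linear_combination (-y) * huv⟩
  obtain ⟨δ, h0, h1, h2, h3⟩ := lift (A * B) (γ 0 0 * (v * B) + γ' 0 0 * (u * A))
    (γ 0 1 * (v * B) + γ' 0 1 * (u * A)) (γ 1 0 * (v * B) + γ' 1 0 * (u * A))
    (γ 1 1 * (v * B) + γ' 1 1 * (u * A)) (modEq_mul h
      (by
        have := ((e1 (γ 0 0) (γ' 0 0)).mul (e1 (γ 1 1) (γ' 1 1))).sub
          ((e1 (γ 0 1) (γ' 0 1)).mul (e1 (γ 1 0) (γ' 1 0)))
        rwa [detZ] at this)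
      (by
        have := ((e2 (γ 0 0) (γ' 0 0)).mul (e2 (γ 1 1) (γ' 1 1))).sub
          ((e2 (γ 0 1) (γ' 0 1)).mul (e2 (γ 1 0) (γ' 1 0)))
        rwa [detZ] at this))
  have dA : (A : ℤ) ∣ (A * B : ℕ) := by push_cast; exact dvd_mul_right _ _
  have dB : (B : ℤ) ∣ (A * B : ℕ) := by push_cast; exact dvd_mul_left _ _
  refine ⟨δ, (inv_mul_mem _ _ _).2 ⟨(h0.of_dvd dA).trans (e1 _ _), (h1.of_dvd dA).trans (e1 _ _),
    (h2.of_dvd dA).trans (e1 _ _), (h3.of_dvd dA).trans (e1 _ _)⟩,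
    (inv_mul_mem _ _ _).2 ⟨(h0.of_dvd dB).trans (e2 _ _), (h1.of_dvd dB).trans (e2 _ _),
    (h2.of_dvd dB).trans (e2 _ _), (h3.of_dvd dB).trans (e2 _ _)⟩⟩

/-- a finite family of representatives of `H` modulo `K` -/
structure Tv {ι : Type} (H K : Subgroup SZ) (s : Finset ι) (f : ι → SZ) : Prop where
  mem : ∀ i ∈ s, f i ∈ H
  cov : ∀ γ ∈ H, ∃ i ∈ s, (f i)⁻¹ * γ ∈ K
  inj : ∀ i ∈ s, ∀ j ∈ s, (f i)⁻¹ * f j ∈ K → i = j

theorem finQ (H : Subgroup SZ) (L : ℕ) (hL : 0 < L) :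
    Finite (H ⧸ (Gamma L).subgroupOf H) := by
  have : NeZero L := ⟨hL.ne'⟩
  infer_instance

theorem tv_out (H : Subgroup SZ) (L : ℕ) [Fintype (H ⧸ (Gamma L).subgroupOf H)] :
    Tv H (Gamma L) Finset.univ
      (fun x : H ⧸ (Gamma L).subgroupOf H => ((x.out : H) : SZ)) where
  mem x _ := (x.out : H).2
  cov γ hγ := by
    refine ⟨QuotientGroup.mk ⟨γ, hγ⟩, Finset.mem_univ _, ?_⟩
    have : (QuotientGroup.mk (QuotientGroup.mk (⟨γ, hγ⟩ : H) :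
        H ⧸ (Gamma L).subgroupOf H).out : H ⧸ (Gamma L).subgroupOf H)
        = QuotientGroup.mk ⟨γ, hγ⟩ := QuotientGroup.out_eq' _
    have h2 := QuotientGroup.eq.1 this
    simpa [Subgroup.mem_subgroupOf, -Gamma_mem] using h2
  inj x _ y _ h := by
    rw [← QuotientGroup.out_eq' x, ← QuotientGroup.out_eq' y]
    apply QuotientGroup.eq.2
    simpa [Subgroup.mem_subgroupOf, -Gamma_mem] using h

theorem av_out {X : Type} [AddCommMonoid X] [Module ℝ X] (H : Subgroup SZ) (L : ℕ)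
    [Fintype (H ⧸ (Gamma L).subgroupOf H)] (Φ : SZ → X) :
    Av H L Φ = (((Finset.univ : Finset (H ⧸ (Gamma L).subgroupOf H)).card : ℝ)⁻¹) •
      ∑ x : H ⧸ (Gamma L).subgroupOf H, Φ ((x.out : H) : SZ) := by
  rw [Av, finsum_eq_sum_of_fintype, Nat.card_eq_fintype_card, Finset.card_univ]

/-- two families of representatives give the same sums -/
theorem Tv.sum_eq {ι κ : Type} {H K : Subgroup SZ} {s : Finset ι} {f : ι → SZ} {t : Finset κ}
    {g : κ → SZ} (hs : Tv H K s f) (ht : Tv H K t g) {X : Type} [AddCommMonoid X] (Φ : SZ → X)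
    (hΦ : ∀ γ δ, δ ∈ K → Φ (γ * δ) = Φ γ) : ∑ i ∈ s, Φ (f i) = ∑ j ∈ t, Φ (g j) := by
  choose e he1 he2 using fun i (hi : i ∈ s) => ht.cov (f i) (hs.mem i hi)
  refine Finset.sum_bij e he1 ?_ ?_ ?_
  · intro i hi j hj hij
    apply hs.inj i hi j hj
    have h1 := he2 i hi
    have h2 := he2 j hj
    rw [← hij] at h2
    have := K.mul_mem (K.inv_mem h1) h2
    simpa [mul_assoc] using this
  · intro j hj
    obtain ⟨i, hi, h⟩ := hs.cov (g j) (ht.mem j hj)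
    refine ⟨i, hi, ht.inj _ (he1 i hi) _ hj ?_⟩
    have := K.mul_mem (he2 i hi) h
    simpa [mul_assoc] using this
  · intro i hi
    rw [← hΦ (g (e i hi)) _ (he2 i hi)]
    simp

theorem Tv.card_eq {ι κ : Type} {H K : Subgroup SZ} {s : Finset ι} {f : ι → SZ} {t : Finset κ}
    {g : κ → SZ} (hs : Tv H K s f) (ht : Tv H K t g) : s.card = t.card := by
  simpa using hs.sum_eq ht (fun _ => (1 : ℕ)) fun _ _ _ => rfl

theorem Tv.av {ι : Type} {H : Subgroup SZ} {L : ℕ} {s : Finset ι} {f : ι → SZ}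
    (hs : Tv H (Gamma L) s f) (hL : 0 < L) {X : Type} [AddCommMonoid X] [Module ℝ X]
    (Φ : SZ → X) (hΦ : Lev L Φ) : Av H L Φ = ((s.card : ℝ)⁻¹) • ∑ i ∈ s, Φ (f i) := by
  have := finQ H L hL
  have := Fintype.ofFinite (H ⧸ (Gamma L).subgroupOf H)
  rw [av_out, hs.sum_eq (tv_out H L) Φ hΦ, hs.card_eq (tv_out H L)]

theorem Tv.nonempty {ι : Type} {H K : Subgroup SZ} {s : Finset ι} {f : ι → SZ}
    (hs : Tv H K s f) : s.Nonempty := by
  obtain ⟨i, hi, -⟩ := hs.cov 1 H.one_mem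
  exact ⟨i, hi⟩

theorem Tv.prod {ι κ : Type} {H K M : Subgroup SZ} {s : Finset ι} {f : ι → SZ} {t : Finset κ}
    {g : κ → SZ} (hs : Tv H K s f) (ht : Tv (H ⊓ K) M t g) (hM : M ≤ K) :
    Tv H M (s ×ˢ t) (fun x => f x.1 * g x.2) where
  mem x hx := by
    rw [Finset.mem_product] at hx
    exact H.mul_mem (hs.mem _ hx.1) (ht.mem _ hx.2).1
  cov γ hγ := by
    obtain ⟨i, hi, h1⟩ := hs.cov γ hγ
    obtain ⟨j, hj, h2⟩ := ht.cov ((f i)⁻¹ * γ) ⟨H.mul_mem (H.inv_mem (hs.mem i hi)) hγ, h1⟩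
    exact ⟨(i, j), Finset.mem_product.2 ⟨hi, hj⟩, by simpa [mul_assoc] using h2⟩
  inj x hx y hy h := by
    rw [Finset.mem_product] at hx hy
    have h1 : x.1 = y.1 := by
      apply hs.inj _ hx.1 _ hy.1
      have := K.mul_mem (K.mul_mem (ht.mem _ hx.2).2 (hM h)) (K.inv_mem (ht.mem _ hy.2).2)
      simpa [mul_assoc] using this
    refine Prod.ext h1 (ht.inj _ hx.2 _ hy.2 ?_)
    rw [h1] at h
    simpa [mul_assoc] using h

theorem fin (H : Subgroup SZ) (L : ℕ) (hL : 0 < L) : ∃ s : Finset SZ, Tv H (Gamma L) s id ∧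
    ∀ (X : Type) [AddCommMonoid X] [Module ℝ X] (Φ : SZ → X),
      Av H L Φ = ((s.card : ℝ)⁻¹) • ∑ γ ∈ s, Φ γ := by
  classical
  have := finQ H L hL
  have := Fintype.ofFinite (H ⧸ (Gamma L).subgroupOf H)
  have h := tv_out H L
  have hi : Function.Injective fun x : H ⧸ (Gamma L).subgroupOf H => ((x.out : H) : SZ) := by
    intro x y e
    apply h.inj x (Finset.mem_univ _) y (Finset.mem_univ _)
    have e' : ((x.out : H) : SZ) = ((y.out : H) : SZ) := e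
    rw [e', inv_mul_cancel]
    exact one_mem _
  refine ⟨Finset.univ.image fun x : H ⧸ (Gamma L).subgroupOf H => ((x.out : H) : SZ),
    ⟨?_, ?_, ?_⟩, ?_⟩
  · intro γ hγ
    obtain ⟨x, hx, rfl⟩ := Finset.mem_image.1 hγ
    exact h.mem x hx
  · intro γ hγ
    obtain ⟨x, hx, e⟩ := h.cov γ hγ
    exact ⟨_, Finset.mem_image_of_mem _ hx, e⟩
  · intro γ hγ δ hδ e
    obtain ⟨x, hx, rfl⟩ := Finset.mem_image.1 hγ
    obtain ⟨y, hy, rfl⟩ := Finset.mem_image.1 hδ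
    rw [h.inj x hx y hy e]
  · intro X _ _ Φ
    rw [av_out, Finset.card_image_of_injective _ hi, Finset.sum_image fun x _ y _ e => hi e]

theorem lev {X : Type} [AddCommMonoid X] [Module ℝ X] (H : Subgroup SZ) (L L' : ℕ) (Φ : SZ → X)
    (hL' : 0 < L') (hd : L ∣ L') (hΦ : Lev L Φ) : Av H L' Φ = Av H L Φ := by
  have hL : 0 < L := Nat.pos_of_dvd_of_pos hd hL'
  obtain ⟨s, hs, -⟩ := fin H L hL
  obtain ⟨t, ht, -⟩ := fin (H ⊓ Gamma L) L' hL'
  have hp := hs.prod ht (mono hd)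
  rw [hp.av hL' Φ fun γ δ h => hΦ γ δ (mono hd h), hs.av hL Φ hΦ, Finset.sum_product,
    Finset.card_product]
  have e : ∀ i ∈ s, ∑ j ∈ t, Φ (id i * id j) = (t.card : ℝ) • Φ (id i) := by
    intro i _
    rw [Finset.sum_congr rfl fun j hj => hΦ (id i) (id j) (ht.mem j hj).2, Finset.sum_const,
      Nat.cast_smul_eq_nsmul]
  rw [Finset.sum_congr rfl e, ← Finset.smul_sum, smul_smul]
  have : (t.card : ℝ) ≠ 0 := by exact_mod_cast ht.nonempty.card_pos.ne'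
  congr 1
  push_cast
  rw [mul_inv, mul_assoc, inv_mul_cancel₀ this, mul_one]

theorem perm {X : Type} [AddCommMonoid X] [Module ℝ X] (H : Subgroup SZ) (L : ℕ) (Φ : SZ → X)
    (ψ : SZ → SZ) (hL : 0 < L) (hΦ : Lev L Φ) (h1 : ∀ γ ∈ H, ψ γ ∈ H)
    (h2 : ∀ γ ∈ H, ∀ γ' ∈ H, (ψ γ)⁻¹ * ψ γ' ∈ Gamma L → γ⁻¹ * γ' ∈ Gamma L) :
    Av H L (fun γ => Φ (ψ γ)) = Av H L Φ := by
  obtain ⟨s, hs, hav⟩ := fin H L hL
  have hinj : ∀ i ∈ s, ∀ j ∈ s, (ψ i)⁻¹ * ψ j ∈ Gamma L → i = j := fun i hi j hj e =>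
    hs.inj i hi j hj (h2 i (hs.mem i hi) j (hs.mem j hj) e)
  have hψ : Tv H (Gamma L) s ψ := by
    refine ⟨fun i hi => h1 i (hs.mem i hi), ?_, hinj⟩
    choose e he1 he2 using fun i (hi : i ∈ s) => hs.cov (ψ i) (h1 i (hs.mem i hi))
    have hsur := Finset.surj_on_of_inj_on_of_card_le e he1 (by
      intro i j hi hj hij
      apply hinj i hi j hj
      have a1 := he2 i hi
      have a2 := he2 j hj
      rw [← hij] at a2
      have := (Gamma L).mul_mem ((Gamma L).inv_mem a1) a2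
      simpa [mul_assoc, -Gamma_mem] using this) le_rfl
    intro γ hγ
    obtain ⟨j, hj, a⟩ := hs.cov γ hγ
    obtain ⟨i, hi, rfl⟩ := hsur j hj
    refine ⟨i, hi, ?_⟩
    have := (Gamma L).mul_mem ((Gamma L).inv_mem (he2 i hi)) a
    simpa [mul_assoc, -Gamma_mem] using this
  rw [hav, hψ.av hL Φ hΦ]

theorem tv_crt {A B D : ℕ} (hAB : A.Coprime B) (hBD : B.Coprime D) {s : Finset SZ}
    (hs : Tv (Gamma (A * D)) (Gamma (A * B * D)) s id) :
    Tv (Gamma D) (Gamma (B * D)) s id := by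
  have hc : (A * D).Coprime B := Nat.Coprime.mul_left hAB hBD.symm
  refine ⟨fun i hi => mono (dvd_mul_left D A) (hs.mem i hi), ?_, ?_⟩
  · intro γ hγ
    obtain ⟨δ, h1, h2⟩ := crt (A * D) B 1 γ hc
    rw [inv_one, one_mul] at h1
    obtain ⟨i, hi, h3⟩ := hs.cov δ h1
    refine ⟨i, hi, mem_mul hBD ?_ ?_⟩
    · have := (Gamma B).mul_mem (mono (⟨A * D, by ring⟩ : B ∣ A * B * D) h3)
        ((Gamma B).inv_mem h2)
      simpa [mul_assoc, -Gamma_mem] using this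
    · exact (Gamma D).mul_mem ((Gamma D).inv_mem (mono (dvd_mul_left D A) (hs.mem i hi))) hγ
  · intro i hi j hj e
    apply hs.inj i hi j hj
    have h1 := mem_mul hc ((Gamma (A * D)).mul_mem ((Gamma (A * D)).inv_mem (hs.mem i hi))
      (hs.mem j hj)) (mono (dvd_mul_right B D) e)
    rwa [show A * D * B = A * B * D by ring] at h1

theorem split {X : Type} [AddCommMonoid X] [Module ℝ X] (A B D : ℕ) (Φ : SZ → X) (hA : 0 < A)
    (hB : 0 < B) (hD : 0 < D) (hAB : A.Coprime B) (hBD : B.Coprime D)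
    (hΦ : Lev (A * B * D) Φ) :
    Av (Gamma D) (A * B * D) Φ = Av (Gamma (A * D)) (A * B * D) fun γ =>
      Av (Gamma (B * D)) (A * B * D) fun γ' => Φ (γ * γ') := by
  have hL : 0 < A * B * D := by positivity
  obtain ⟨s, hs, hav⟩ := fin (Gamma (A * D)) (A * B * D) hL
  obtain ⟨t, ht, hav'⟩ := fin (Gamma (B * D)) (A * B * D) hL
  have ht' : Tv (Gamma D ⊓ Gamma (B * D)) (Gamma (A * B * D)) t id := by
    rwa [inf_eq_right.2 (mono (dvd_mul_left D B))]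
  have hp := (tv_crt hAB hBD hs).prod ht' (mono ⟨A, by ring⟩)
  rw [hp.av hL Φ hΦ, hav, Finset.sum_product, Finset.card_product]
  simp only [hav', id]
  rw [← Finset.smul_sum, smul_smul]
  congr 1
  push_cast
  rw [mul_inv]

theorem drop {X : Type} [AddCommMonoid X] [Module ℝ X] (A B : ℕ) (Φ : SZ → X) (hA : 0 < A)
    (hB : 0 < B) (hAB : A.Coprime B) (hΦ : Lev B Φ) :
    Av (Gamma A) (A * B) Φ = Av ⊤ B Φ := by
  obtain ⟨s, hs, hav⟩ := fin (Gamma A) (A * B) (by positivity)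
  have h1 := tv_crt (D := 1) hAB (Nat.coprime_one_right B) (by simpa using hs)
  rw [Gamma_one_top, mul_one] at h1
  rw [hav, h1.av hB Φ hΦ]
  rfl

theorem av_ind {ι : Type} {K : Subgroup SZ} {L : ℕ} {s : Finset ι} {f : ι → SZ}
    (hs : Tv ⊤ K s f) (hL : 0 < L) (hK : Gamma L ≤ K) (γ₀ : SZ) (P : SZ → Prop)
    [DecidablePred P] (hP : ∀ γ, P γ ↔ γ₀⁻¹ * γ ∈ K) :
    Av ⊤ L (fun γ => if P γ then (1 : ℝ) else 0) = 1 / s.card := by
  classical
  obtain ⟨t, ht, -⟩ := fin (⊤ ⊓ K) L hL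
  have hmul : ∀ γ δ, δ ∈ K → (P (γ * δ) ↔ P γ) := by
    intro γ δ hδ
    rw [hP, hP, ← mul_assoc, K.mul_mem_cancel_right hδ]
  rw [(hs.prod ht hK).av hL _ (fun γ δ hδ => by simp only [hmul γ δ (hK hδ)]),
    Finset.sum_product, Finset.card_product]
  obtain ⟨i, hi, h1⟩ := hs.cov γ₀ trivial
  have e : ∀ j ∈ s, ∑ y ∈ t, (if P (f j * id y) then (1 : ℝ) else 0)
      = if j = i then (t.card : ℝ) else 0 := by
    intro j hj
    have : P (f j) ↔ j = i := by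
      rw [hP]
      constructor
      · intro h2
        apply (hs.inj i hi j hj _).symm
        have := K.mul_mem h1 h2
        simpa [mul_assoc] using this
      · rintro rfl
        have := K.inv_mem h1
        simpa using this
    rw [Finset.sum_congr rfl fun y hy => by rw [if_congr (hmul _ _ (ht.mem y hy).2) rfl rfl]]
    by_cases h : j = i
    · rw [if_pos (this.2 h), if_pos h]; simp
    · rw [if_neg (fun a => h (this.1 a)), if_neg h]; simp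
  rw [Finset.sum_congr rfl e, Finset.sum_ite_eq' s i, if_pos hi]
  have : (t.card : ℝ) ≠ 0 := by exact_mod_cast ht.nonempty.card_pos.ne'
  push_cast
  rw [smul_eq_mul, mul_inv, mul_assoc, inv_mul_cancel₀ this, mul_one, one_div]

theorem inv_mul_mem0 (q : ℕ) (σ γ : SZ) :
    σ⁻¹ * γ ∈ Gamma0 q ↔ (q : ℤ) ∣ σ 0 0 * γ 1 0 - σ 1 0 * γ 0 0 := by
  rw [Gamma0_mem, ZMod.intCast_zmod_eq_zero_iff_dvd]
  have : (σ⁻¹ * γ) 1 0 = σ 0 0 * γ 1 0 - σ 1 0 * γ 0 0 := by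
    simp [Matrix.SpecialLinearGroup.SL2_inv_expl, Matrix.mul_apply, Fin.sum_univ_two]
    ring
  rw [this]

theorem exists_mul (q : ℕ) (hq : 0 < q) (a c : ℤ) (h : IsCoprime a q) :
    ∃ i < q, (q : ℤ) ∣ c - i * a := by
  obtain ⟨u, v, huv⟩ := h
  have hq' : (0 : ℤ) < q := by exact_mod_cast hq
  refine ⟨((c * u) % q).toNat, ?_, ?_⟩
  · have := Int.emod_lt_of_pos (c * u) hq'
    have h0 := Int.emod_nonneg (c * u) hq'.ne'
    omega
  · rw [Int.toNat_of_nonneg (Int.emod_nonneg _ hq'.ne'), Int.emod_def]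
    exact ⟨c * v + c * u / q * a, by linear_combination (-c) * huv⟩

theorem eq_of_dvd {q i j : ℕ} (hi : i < q) (hj : j < q) (h : (q : ℤ) ∣ (j : ℤ) - i) : i = j := by
  have := Int.eq_zero_of_abs_lt_dvd h (by rw [abs_lt]; constructor <;> omega)
  omega

theorem tv0 (p k : ℕ) (hp : p.Prime) : Tv ⊤ (Gamma0 (p ^ (k + 1)))
    ((Finset.range (p ^ (k + 1))).disjSum (Finset.range (p ^ k)))
    (Sum.elim (fun i : ℕ => mkZ 1 0 i 1 (by ring)) fun i : ℕ => mkZ (p * i) (-1) 1 0 (by ring)) := by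
  have hp' : Prime (p : ℤ) := Nat.prime_iff_prime_int.1 hp
  have hpq : (p : ℤ) ∣ ((p ^ (k + 1) : ℕ) : ℤ) := by
    push_cast
    exact dvd_pow_self _ (by omega)
  refine ⟨fun _ _ => trivial, ?_, ?_⟩
  · intro γ _
    by_cases ha : (p : ℤ) ∣ γ 0 0
    · have hc : ¬ (p : ℤ) ∣ γ 1 0 := by
        intro hc
        apply hp'.not_dvd_one
        rw [← detZ γ]
        exact (ha.mul_right _).sub (hc.mul_left _)
      obtain ⟨a', ha'⟩ := ha
      obtain ⟨i, hi, h⟩ := exists_mul (p ^ k) (pow_pos hp.pos k) (γ 1 0) a' (by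
        push_cast
        exact ((hp'.coprime_iff_not_dvd.2 hc).symm).pow_right)
      refine ⟨Sum.inr i, by simpa using hi, ?_⟩
      rw [inv_mul_mem0]
      simp only [Sum.elim_inr, mkZ_00, mkZ_10]
      obtain ⟨w, hw⟩ := h
      refine ⟨-w, ?_⟩
      rw [ha']
      push_cast at hw ⊢
      linear_combination (-(p : ℤ)) * hw
    · obtain ⟨i, hi, h⟩ := exists_mul (p ^ (k + 1)) (pow_pos hp.pos _) (γ 0 0) (γ 1 0) (by
        push_cast
        exact ((hp'.coprime_iff_not_dvd.2 ha).symm).pow_right)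
      refine ⟨Sum.inl i, by simpa using hi, ?_⟩
      rw [inv_mul_mem0]
      simpa using h
  · intro x hx y hy h
    rw [inv_mul_mem0] at h
    rcases x with i | i <;> rcases y with j | j <;>
      simp only [Sum.elim_inl, Sum.elim_inr, mkZ_00, mkZ_10, Finset.inl_mem_disjSum,
        Finset.inr_mem_disjSum, Finset.mem_range] at h hx hy
    · rw [eq_of_dvd hx hy (by simpa using h)]
    · exfalso
      apply hp'.not_dvd_one
      have h1 := (hpq.trans h).add (dvd_mul_right (p : ℤ) (i * j))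
      have e : (1 : ℤ) * 1 - i * (p * j) + p * (i * j) = 1 := by ring
      rwa [e] at h1
    · exfalso
      apply hp'.not_dvd_one
      have h1 := (dvd_mul_right (p : ℤ) (i * j)).sub (hpq.trans h)
      have e : (p : ℤ) * (i * j) - (p * i * j - 1 * 1) = 1 := by ring
      rwa [e] at h1
    · have h1 : ((p ^ k : ℕ) : ℤ) ∣ (i : ℤ) - j := by
        have e1 : ((p ^ (k + 1) : ℕ) : ℤ) = p * ((p ^ k : ℕ) : ℤ) := by push_cast; ring
        have e2 : (p : ℤ) * i * 1 - 1 * (p * j) = p * (i - j) := by ring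
        rw [e1, e2] at h
        exact (mul_dvd_mul_iff_left hp'.ne_zero).1 h
      rw [eq_of_dvd hy hx h1]

theorem prob (p j : ℕ) (hp : p.Prime) (hj : 1 ≤ j) :
    Av ⊤ (p ^ j) (fun γ => if (p : ℤ) ^ j ∣ γ 1 0 then (1 : ℝ) else 0) =
      1 / ((p : ℝ) ^ (j - 1) * (p + 1)) ∧
    Av ⊤ (p ^ j) (fun γ => if (p : ℤ) ^ j ∣ γ 0 0 then (1 : ℝ) else 0) =
      1 / ((p : ℝ) ^ (j - 1) * (p + 1)) := by
  obtain ⟨k, rfl⟩ : ∃ k, j = k + 1 := ⟨j - 1, by omega⟩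
  have hK : Gamma (p ^ (k + 1)) ≤ Gamma0 (p ^ (k + 1)) := fun γ hγ =>
    Gamma0_mem.2 (Gamma_mem.1 hγ).2.2.1
  have hc : (((Finset.range (p ^ (k + 1))).disjSum (Finset.range (p ^ k))).card : ℝ)
      = (p : ℝ) ^ (k + 1 - 1) * (p + 1) := by
    rw [Finset.card_disjSum, Finset.card_range, Finset.card_range, Nat.add_sub_cancel]
    push_cast
    ring
  constructor
  · rw [av_ind (tv0 p k hp) (pow_pos hp.pos _) hK 1 _ (fun γ => by
      rw [inv_mul_mem0]; simp), hc]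
  · rw [av_ind (tv0 p k hp) (pow_pos hp.pos _) hK (mkZ 0 (-1) 1 0 (by ring)) _ (fun γ => by
      rw [inv_mul_mem0]; simp), hc]

end AvAux

theorem avFacts : AvFacts where
  lift := AvAux.lift
  crt := AvAux.crt
  fin H L hL := by
    obtain ⟨s, hs, hav⟩ := AvAux.fin H L hL
    exact ⟨s, hs.nonempty, hs.mem, hs.cov, hs.inj, hav⟩
  lev _ _ _ := AvAux.lev
  perm _ _ _ := AvAux.perm
  split _ _ _ A B D Φ hA hB hD hAB _ hBD hΦ := AvAux.split A B D Φ hA hB hD hAB hBD hΦ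
  drop _ _ _ := AvAux.drop
  prob := AvAux.prob

end

end Pool.Agent.MP_b2c033_nt.U
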