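import Pool.Agent.MP_b2c033_nt.U.Spec

/-! Block B2: a modular unit avoids the zeros and the poles of the function it comes from. -/

namespace Pool.Agent.MP_b2c033_nt.U

open Filter Topology Function
open UpperHalfPlane hiding I
open scoped Real Manifold

namespace Avo

variable {V : Type} [NormedAddCommGroup V] [InnerProductSpace ℂ V] {C : CS V}
  {ι φ : V →ₗ[ℂ] ℍ → ℂ}

theorem ana {u : ℍ → ℂ} (h : MDifferentiable 𝓘(ℂ) 𝓘(ℂ) u) :
    AnalyticOnNhd ℂ (u ∘ ofComplex) {z | 0 < z.im} :=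
  (UpperHalfPlane.mdifferentiable_iff.1 h).analyticOnNhd isOpen_upperHalfPlaneSet

theorem der' (h : Realis C ι φ) (F : V) {q : ℂ} (hq : 0 < q.im) :
    HasDerivAt (φ F ∘ ofComplex) (2 * π * Complex.I * (ι F ∘ ofComplex) q) q := by
  have := h.der F ⟨q, hq⟩
  rwa [comp_apply, ofComplex_apply_of_im_pos hq]

theorem tend (h : Realis C ι φ) {F : V} (hF : F ≠ 0) (w : ℂ) (z : ℍ) :
    Tendsto (fun q => φ F (ofComplex q) + w) (𝓝[≠] (z : ℂ)) (𝓝[≠] (φ F z + w)) := by
  have hz : {z : ℂ | 0 < z.im} ∈ 𝓝 (z : ℂ) := isOpen_upperHalfPlaneSet.mem_nhds z.im_pos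
  have a : AnalyticAt ℂ (φ F ∘ ofComplex) z := DifferentiableOn.analyticAt
    (fun _ hq => (der' h F hq).differentiableAt.differentiableWithinAt) hz
  have n : ∀ᶠ q in 𝓝[≠] (z : ℂ), (φ F ∘ ofComplex) q ≠ (φ F ∘ ofComplex) z := by
    refine (a.eventually_eq_or_eventually_ne analyticAt_const).resolve_left fun h1 => ?_
    refine hF (h.inj (Eq.trans (funext fun y => ?_) (map_zero ι).symm))
    have h2 : (ι F ∘ ofComplex) =ᶠ[𝓝 (z : ℂ)] 0 := by
      filter_upwards [hz, h1.eventually_nhds] with q q2 q3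
      exact (mul_eq_zero.1 ((der' h F q2).unique
        ((hasDerivAt_const q _).congr_of_eventuallyEq q3))).resolve_left Complex.two_pi_I_ne_zero
    simpa using (ana (h.cusp F).hol).eqOn_zero_of_preconnected_of_eventuallyEq_zero
      (convex_halfSpace_im_gt 0).isPreconnected z.im_pos h2 y.im_pos
  have b := a.continuousAt.tendsto
  simp only [comp_apply, ofComplex_apply] at n b
  exact tendsto_nhdsWithin_iff.2 ⟨(b.add_const w).mono_left nhdsWithin_le_nhds,
    n.mono fun q hq h2 => hq (add_right_cancel h2)⟩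

theorem per (W : WeierstrassCurve ℤ) (L : PeriodPair) (P : Polynomial (Polynomial ℚ)) {l : ℂ}
    (hl : l ∈ lat L) (w : ℂ) : evW W L P (w + l) = evW W L P w := by
  simp only [evW, wx, wy, L.weierstrassP_add_coe w ⟨l, hl⟩,
    L.derivWeierstrassP_add_coe w ⟨l, hl⟩]

end Avo

open Avo in
theorem s_Avoid : S_Avoid := by
  intro hE V _ _ C ι φ _ hR W L M F w₀ P Q u Fu hW hL hF _ hQ hu hT s hs z hz
  set l := φ F z + w₀ - s with hl
  have t := tend hR hF (w₀ - l) z
  rw [show φ F z + (w₀ - l) = s by rw [hl]; ring] at t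
  have e1 : ∀ᶠ w in 𝓝[≠] s, w ∉ L.lattice := by
    filter_upwards [self_mem_nhdsWithin,
      nhdsWithin_le_nhds (L.compl_lattice_sdiff_singleton_mem_nhds s)] with w a b
    exact fun h => b ⟨h, a⟩
  have e2 : (fun w => evW W L P w / evW W L Q w) ∘ (fun q => φ F (ofComplex q) + (w₀ - l))
      =ᶠ[𝓝[≠] (z : ℂ)] u ∘ ofComplex := by
    filter_upwards [t.eventually e1, t.eventually ((hE W L Q hW hL).2.2 hQ s)] with q a b
    have e : φ F (ofComplex q) + w₀ = φ F (ofComplex q) + (w₀ - l) + l := by ring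
    have := hT (ofComplex q) (fun c => a ((add_mem_cancel_right hz).1 (e ▸ c)))
      (by simp only []; rwa [e, per W L Q hz])
    simp only [] at this
    rw [e, per W L P hz, per W L Q hz] at this
    exact this.symm
  have e3 : Tendsto (u ∘ ofComplex) (𝓝[≠] (z : ℂ)) (𝓝 (u z)) := by
    have := (ana hu.hol z z.im_pos).continuousAt.tendsto
    rw [comp_apply, ofComplex_apply] at this
    exact this.mono_left nhdsWithin_le_nhds
  rcases lt_or_gt_of_ne hs with h | h
  · exact ((tendsto_cobounded_of_meromorphicOrderAt_neg h).comp t).congr' e2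
      |>.not_tendsto (Metric.disjoint_cobounded_nhds _) e3
  · exact hu.ne z (tendsto_nhds_unique e3
      (((tendsto_zero_of_meromorphicOrderAt_pos h).comp t).congr' e2))

end Pool.Agent.MP_b2c033_nt.U
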