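import Pool.Agent.MP_b2c033_nt.U.Defs

/-! Shared objects for the level theorem (page b2c033_FULL_h54.md): rational matrices, averages
over congruence quotients, the abstract space of cusp forms of weight two, its realisation by
functions, and the arithmetic data of the curve. -/

namespace Pool.Agent.MP_b2c033_nt.U

open UpperHalfPlane hiding I
open WeierstrassCurve CongruenceSubgroup MeasureTheory
open scoped Real Manifold MatrixGroups InnerProductSpace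

noncomputable section

/-! ## Matrices -/

/-- rational two by two matrices `(a b; c d)` -/
@[ext] structure Mt where
  a : ℚ
  b : ℚ
  c : ℚ
  d : ℚ

instance : Mul Mt := ⟨fun x y => ⟨x.a * y.a + x.b * y.c, x.a * y.b + x.b * y.d,
  x.c * y.a + x.d * y.c, x.c * y.b + x.d * y.d⟩⟩

instance : One Mt := ⟨⟨1, 0, 0, 1⟩⟩

namespace Mt

@[simp] lemma mul_a (x y : Mt) : (x * y).a = x.a * y.a + x.b * y.c := rfl
@[simp] lemma mul_b (x y : Mt) : (x * y).b = x.a * y.b + x.b * y.d := rfl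
@[simp] lemma mul_c (x y : Mt) : (x * y).c = x.c * y.a + x.d * y.c := rfl
@[simp] lemma mul_d (x y : Mt) : (x * y).d = x.c * y.b + x.d * y.d := rfl
@[simp] lemma one_a : (1 : Mt).a = 1 := rfl
@[simp] lemma one_b : (1 : Mt).b = 0 := rfl
@[simp] lemma one_c : (1 : Mt).c = 0 := rfl
@[simp] lemma one_d : (1 : Mt).d = 1 := rfl

instance : Monoid Mt where
  mul_assoc x y z := by ext <;> simp <;> ring
  one_mul x := by ext <;> simp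
  mul_one x := by ext <;> simp

def det (x : Mt) : ℚ := x.a * x.d - x.b * x.c

lemma det_mul (x y : Mt) : (x * y).det = x.det * y.det := by simp [det]; ring

end Mt

/-- the translation `T ^ x` -/
def Tr (x : ℚ) : Mt := ⟨1, x, 0, 1⟩
/-- the lower unipotent `L ^ x` -/
def Lw (x : ℚ) : Mt := ⟨1, 0, x, 1⟩
/-- the dilation `V_r` -/
def Vd (r : ℚ) : Mt := ⟨r, 0, 0, 1⟩

@[simp] lemma det_Tr (x : ℚ) : (Tr x).det = 1 := by simp [Tr, Mt.det]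
@[simp] lemma det_Lw (x : ℚ) : (Lw x).det = 1 := by simp [Lw, Mt.det]
@[simp] lemma det_Vd (r : ℚ) : (Vd r).det = r := by simp [Vd, Mt.det]

abbrev SZ : Type := SL(2, ℤ)

/-- an integral matrix of determinant one from its entries -/
def mkZ (a b c d : ℤ) (h : a * d - b * c = 1) : SZ :=
  ⟨!![a, b; c, d], by rw [Matrix.det_fin_two_of]; exact h⟩

@[simp] lemma mkZ_00 (a b c d : ℤ) (h) : mkZ a b c d h 0 0 = a := rfl
@[simp] lemma mkZ_01 (a b c d : ℤ) (h) : mkZ a b c d h 0 1 = b := rfl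
@[simp] lemma mkZ_10 (a b c d : ℤ) (h) : mkZ a b c d h 1 0 = c := rfl
@[simp] lemma mkZ_11 (a b c d : ℤ) (h) : mkZ a b c d h 1 1 = d := rfl

lemma detZ (γ : SZ) : γ 0 0 * γ 1 1 - γ 0 1 * γ 1 0 = 1 := by
  have := γ.det_coe; rwa [Matrix.det_fin_two] at this

def ofZ (γ : SZ) : Mt := ⟨γ 0 0, γ 0 1, γ 1 0, γ 1 1⟩

@[simp] lemma det_ofZ (γ : SZ) : (ofZ γ).det = 1 := by
  simp only [ofZ, Mt.det]; exact_mod_cast detZ γ

lemma ofZ_mul (γ δ : SZ) : ofZ (γ * δ) = ofZ γ * ofZ δ := by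
  ext <;> simp [ofZ, Matrix.mul_apply, Fin.sum_univ_two]

@[simp] lemma ofZ_one : ofZ 1 = 1 := by ext <;> simp [ofZ]

/-- `e(x)` -/
def ee (x : ℚ) : ℂ := Complex.exp (2 * π * Complex.I * x)

/-! ## Averages -/

/-- `Φ` has level `L` -/
def Lev {X : Type} (L : ℕ) (Φ : SZ → X) : Prop := ∀ γ δ, δ ∈ Gamma L → Φ (γ * δ) = Φ γ

/-- the average of `Φ` over `H` modulo `Γ(L)` -/
def Av {X : Type} [AddCommMonoid X] [Module ℝ X] (H : Subgroup SZ) (L : ℕ) (Φ : SZ → X) : X :=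
  ((Nat.card (H ⧸ (Gamma L).subgroupOf H) : ℝ)⁻¹) •
    ∑ᶠ x : H ⧸ (Gamma L).subgroupOf H, Φ ((x.out : H) : SZ)

/-- `γ' = (a, b d; c / d, e)` modulo `L` -/
def Tw (L : ℕ) (d : ℤ) (γ γ' : SZ) : Prop :=
  γ' 0 0 ≡ γ 0 0 [ZMOD L] ∧ γ' 0 1 ≡ γ 0 1 * d [ZMOD L] ∧ γ' 1 0 * d ≡ γ 1 0 [ZMOD L] ∧
    γ' 1 1 ≡ γ 1 1 [ZMOD L]

structure AvFacts : Prop where
  lift : ∀ (L : ℕ) (a b c d : ℤ), a * d - b * c ≡ 1 [ZMOD L] → ∃ γ : SZ, γ 0 0 ≡ a [ZMOD L] ∧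
    γ 0 1 ≡ b [ZMOD L] ∧ γ 1 0 ≡ c [ZMOD L] ∧ γ 1 1 ≡ d [ZMOD L]
  crt : ∀ (A B : ℕ) (γ γ' : SZ), A.Coprime B → ∃ δ : SZ, γ⁻¹ * δ ∈ Gamma A ∧ γ'⁻¹ * δ ∈ Gamma B
  fin : ∀ (H : Subgroup SZ) (L : ℕ), 0 < L → ∃ s : Finset SZ, s.Nonempty ∧ (∀ γ ∈ s, γ ∈ H) ∧
    (∀ γ ∈ H, ∃ δ ∈ s, δ⁻¹ * γ ∈ Gamma L) ∧
    (∀ δ ∈ s, ∀ δ' ∈ s, δ⁻¹ * δ' ∈ Gamma L → δ = δ') ∧
    ∀ (X : Type) [AddCommMonoid X] [Module ℝ X] (Φ : SZ → X),
      Av H L Φ = ((s.card : ℝ)⁻¹) • ∑ γ ∈ s, Φ γ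
  lev : ∀ (X : Type) [AddCommMonoid X] [Module ℝ X] (H : Subgroup SZ) (L L' : ℕ) (Φ : SZ → X),
    0 < L' → L ∣ L' → Lev L Φ → Av H L' Φ = Av H L Φ
  perm : ∀ (X : Type) [AddCommMonoid X] [Module ℝ X] (H : Subgroup SZ) (L : ℕ) (Φ : SZ → X)
    (ψ : SZ → SZ), 0 < L → Lev L Φ → (∀ γ ∈ H, ψ γ ∈ H) →
    (∀ γ ∈ H, ∀ γ' ∈ H, (ψ γ)⁻¹ * ψ γ' ∈ Gamma L → γ⁻¹ * γ' ∈ Gamma L) →
    Av H L (fun γ => Φ (ψ γ)) = Av H L Φ
  split : ∀ (X : Type) [AddCommMonoid X] [Module ℝ X] (A B D : ℕ) (Φ : SZ → X), 0 < A → 0 < B →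
    0 < D → A.Coprime B → A.Coprime D → B.Coprime D → Lev (A * B * D) Φ →
    Av (Gamma D) (A * B * D) Φ = Av (Gamma (A * D)) (A * B * D) fun γ =>
      Av (Gamma (B * D)) (A * B * D) fun γ' => Φ (γ * γ')
  drop : ∀ (X : Type) [AddCommMonoid X] [Module ℝ X] (A B : ℕ) (Φ : SZ → X), 0 < A → 0 < B →
    A.Coprime B → Lev B Φ → Av (Gamma A) (A * B) Φ = Av ⊤ B Φ
  prob : ∀ (p j : ℕ), p.Prime → 1 ≤ j →
    Av ⊤ (p ^ j) (fun γ => if (p : ℤ) ^ j ∣ γ 1 0 then (1 : ℝ) else 0) =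
      1 / ((p : ℝ) ^ (j - 1) * (p + 1)) ∧
    Av ⊤ (p ^ j) (fun γ => if (p : ℤ) ^ j ∣ γ 0 0 then (1 : ℝ) else 0) =
      1 / ((p : ℝ) ^ (j - 1) * (p + 1))

/-! ## The abstract space of cusp forms -/

structure CS (V : Type) [NormedAddCommGroup V] [InnerProductSpace ℂ V] where
  act : Mt → V →ₗ[ℂ] V
  β : ℚ → V →ₗ[ℂ] ℂ
  per : Mt → V →ₗ[ℂ] ℂ
  act_mul : ∀ x y v, 0 < x.det → 0 < y.det → act (x * y) v = act y (act x v)
  act_sc : ∀ (r : ℚ) v, r ≠ 0 → act ⟨r, 0, 0, r⟩ v = v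
  inner_act : ∀ x v w, 0 < x.det → ⟪act x v, act x w⟫_ℂ = ⟪v, w⟫_ℂ
  β_Tr : ∀ x ν v, β ν (act (Tr x) v) = ee (ν * x) * β ν v
  β_Vd : ∀ r ν v, 0 < r → β (r * ν) (act (Vd r) v) = r * β ν v
  β_neg : ∀ ν v, ν ≤ 0 → β ν v = 0
  β_inj : ∀ v, (∀ ν, β ν v = 0) → v = 0
  smooth : ∀ v, ∃ L : ℕ, 0 < L ∧ ∀ γ ∈ Gamma L, act (ofZ γ) v = v
  per_mul : ∀ x y v, 0 < x.det → 0 < y.det → per (x * y) v = per x v + per y (act x v)
  per_up : ∀ x v, 0 < x.det → x.c = 0 → per x v = 0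

namespace CS

variable {V : Type} [NormedAddCommGroup V] [InnerProductSpace ℂ V] (C : CS V)

/-- `v` is fixed by `H` -/
def Fix (H : Subgroup SZ) (v : V) : Prop := ∀ γ ∈ H, C.act (ofZ γ) v = v

/-- rational expansion at `∞` -/
def Rat (v : V) : Prop := ∀ ν, ∃ r : ℚ, C.β ν v = r

/-- the periods over `H` lie in `Λ` -/
def Per (H : Subgroup SZ) (v : V) (Λ : AddSubgroup ℂ) : Prop := ∀ γ ∈ H, C.per (ofZ γ) v ∈ Λ

/-- the average order of vanishing at the cusps is at most `m` -/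
def MassLe (v : V) (m : ℝ) : Prop := ∃ (L : ℕ) (o : SZ → ℝ), 0 < L ∧ Lev L o ∧
  (∀ γ, ∃ ν : ℚ, (ν : ℝ) ≤ o γ ∧ C.β ν (C.act (ofZ γ) v) ≠ 0) ∧ Av ⊤ L o ≤ m

def Val : Prop := ∀ (v : V) (L : ℕ) (o : SZ → ℝ), v ≠ 0 → 0 < L → Lev L o →
  (∀ (γ : SZ) (ν : ℚ), (ν : ℝ) < o γ → C.β ν (C.act (ofZ γ) v) = 0) → Av ⊤ L o ≤ 1 / 6

def Horo : Prop := ∀ (v : V) (L : ℕ) (Φ : Finset ℚ), 0 < L → C.Fix (Gamma L) v →
  Av ⊤ L (fun γ => π * ∑ ν ∈ Φ,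
    ‖C.β ν (C.act (ofZ γ) v)‖ ^ 2 * Real.exp (-(4 * π * ν)) / ν) ≤ ‖v‖ ^ 2

def Gal0 : Prop := ∀ (v : V) (M : ℕ) (d : ℤ) (γ γ' : SZ) (ν : ℚ), 0 < M → C.Fix (Gamma1 M) v →
  C.Rat v → IsCoprime d M → Tw M d γ γ' →
  (C.β ν (C.act (ofZ γ') v) = 0 ↔ C.β ν (C.act (ofZ γ) v) = 0)

def Gal1 : Prop := ∀ (v : V) (M N : ℕ) (ν : ℚ), 0 < M → N ∣ M → C.Fix (Gamma0 M) v → C.Rat v →
  ∃ r : ℚ, Av (Gamma0 N) M (fun γ => C.β ν (C.act (ofZ γ) v)) = (r : ℂ)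

structure Good : Prop where
  av : AvFacts
  val : C.Val
  horo : C.Horo
  gal0 : C.Gal0
  gal1 : C.Gal1

/-- the integral combination `∑ c_δ g | V_δ` -/
def comb (g : V) (c : ℕ →₀ ℤ) : V := c.sum fun δ k => (k : ℂ) • C.act (Vd δ) g

end CS

/-! ## Realisation by functions -/

/-- the action on the upper half plane -/
def mob (x : Mt) (z : ℍ) : ℍ := ofComplex ((x.a * (z : ℂ) + x.b) / (x.c * (z : ℂ) + x.d))

/-- the slash action in weight two -/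
def sl (x : Mt) (f : ℍ → ℂ) (z : ℍ) : ℂ :=
  (x.det : ℂ) / (x.c * (z : ℂ) + x.d) ^ 2 * f (mob x z)

/-- cusp forms of weight two for some principal congruence subgroup -/
structure Cusp (f : ℍ → ℂ) : Prop where
  hol : MDifferentiable 𝓘(ℂ) 𝓘(ℂ) f
  lev : ∃ L : ℕ, 0 < L ∧ ∀ γ ∈ Gamma L, sl (ofZ γ) f = f
  bdd : ∃ K : ℝ, ∀ z : ℍ, z.im * ‖f z‖ ≤ K

/-- the open standard domain -/
def fdC : Set ℂ := {z | 0 < z.im ∧ |z.re| < 1 / 2 ∧ 1 < ‖z‖}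

structure Realis {V : Type} [NormedAddCommGroup V] [InnerProductSpace ℂ V] (C : CS V)
    (ι φ : V →ₗ[ℂ] ℍ → ℂ) : Prop where
  inj : Function.Injective ι
  cusp : ∀ v, Cusp (ι v)
  onto : ∀ f, Cusp f → ∃ v, ι v = f
  act : ∀ x v, 0 < x.det → ι (C.act x v) = sl x (ι v)
  sum : ∀ v (z : ℍ), HasSum
    (fun ν : ℚ => C.β ν v * Complex.exp (2 * π * Complex.I * ν * z)) (ι v z)
  phi : ∀ v (z : ℍ), HasSum
    (fun ν : ℚ => C.β ν v / ν * Complex.exp (2 * π * Complex.I * ν * z)) (φ v z)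
  der : ∀ v (z : ℍ), HasDerivAt (fun w => φ v (ofComplex w)) (2 * π * Complex.I * ι v z) z
  per : ∀ x v z, 0 < x.det → φ v (mob x z) = φ (C.act x v) z + C.per x v
  int : ∀ v, IntegrableOn (fun w => ‖ι v (ofComplex w)‖ ^ 2) fdC
  norm : ∀ v (L : ℕ), 0 < L → C.Fix (Gamma L) v → ‖v‖ ^ 2 = 4 * π ^ 2 *
    Av ⊤ L fun γ => ∫ w in fdC, ‖ι (C.act (ofZ γ) v) (ofComplex w)‖ ^ 2

/-! ## The curve -/

/-- the trace of Frobenius, at every prime -/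
def ap (W : WeierstrassCurve ℤ) (p : ℕ) : ℤ :=
  p - Nat.card {P : ZMod p × ZMod p //
    (W.map (Int.castRingHom (ZMod p))).toAffine.Equation P.1 P.2}

/-- `p` at good primes, `0` at bad primes -/
def gp (W : WeierstrassCurve ℤ) (p : ℕ) : ℤ := if (p : ℤ) ∣ W.Δ then 0 else p

structure ApFacts (W : WeierstrassCurve ℤ) : Prop where
  le : ∀ p : ℕ, p.Prime → |ap W p| ≤ p
  hasse : ∀ p : ℕ, p.Prime → ¬ (p : ℤ) ∣ W.Δ → ap W p ^ 2 ≤ 4 * p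
  add : ∀ p : ℕ, p.Prime → (p : ℤ) ∣ W.Δ → (p : ℤ) ∣ W.c₄ → ap W p = 0
  mul : ∀ p : ℕ, p.Prime → (p : ℤ) ∣ W.Δ → ¬ (p : ℤ) ∣ W.c₄ → ap W p = 1 ∨ ap W p = -1

/-- the period lattice of the invariant differential of `W` -/
def IsLat (W : WeierstrassCurve ℤ) (L : PeriodPair) : Prop :=
  L.g₂ = (W.c₄ : ℂ) / 12 ∧ L.g₃ = (W.c₆ : ℂ) / 216

def lat (L : PeriodPair) : AddSubgroup ℂ := L.lattice.toAddSubgroup

def covol (L : PeriodPair) : ℝ := |(starRingEnd ℂ L.ω₁ * L.ω₂).im|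

/-- upper bounds for the covolume -/
structure Vol (W : WeierstrassCurve ℤ) (Ω : ℝ) : Prop where
  pos : 0 < Ω
  all : Ω ^ 6 * |(W.Δ : ℝ)| ≤ 14.06 ^ 6
  big : ∀ n : ℝ, 1000 ≤ n → (n + 1400) * |(W.Δ : ℝ)| ≤ |(W.c₄ : ℝ)| ^ 3 →
    Ω ^ 6 * |(W.Δ : ℝ)| ≤ 1.03 * (2 * π * Real.log n) ^ 6 / n

/-- at least three rational torsion points -/
def Tors3 (W : WeierstrassCurve ℤ) : Prop := ∃ P Q : (toQ W).toAffine.Point,
  P ≠ 0 ∧ Q ≠ 0 ∧ P ≠ Q ∧ IsOfFinAddOrder P ∧ IsOfFinAddOrder Q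

section

variable {V : Type} [NormedAddCommGroup V] [InnerProductSpace ℂ V] (C : CS V)

/-- the congruences of Honda (`β` vanishes at non-integers for these `G`) -/
def Hon (W : WeierstrassCurve ℤ) (Λ : AddSubgroup ℂ) : Prop :=
  ∀ (N : ℕ) (G : V), 0 < N → C.Fix (Gamma1 N) G → C.Rat G → C.Per (Gamma1 N) G Λ →
    ∀ p n : ℕ, p.Prime → ∃ r : ℚ, ¬ p ∣ r.den ∧
      C.β n G - ap W p * C.β (n / p) G + gp W p * C.β (n / p ^ 2) G = n * r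

/-- `b (n / p)` if `p ∣ n` -/
def dn (b : ℕ → ℤ) (p n : ℕ) : ℤ := if p ∣ n then b (n / p) else 0

/-- the arithmetic of the coefficients of a newform of level `N` -/
structure Coef (N : ℕ) (b : ℕ → ℤ) : Prop where
  pos : 0 < N
  zero : b 0 = 0
  one : b 1 = 1
  rel : ∀ p n : ℕ, p.Prime → b (p * n) = b p * b n - (if p ∣ N then 0 else p) * dn b p n
  le : ∀ p : ℕ, p.Prime → |b p| ≤ p
  one' : ∀ p : ℕ, p.Prime → N.factorization p = 1 → b p = 1 ∨ b p = -1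
  two : ∀ p : ℕ, p.Prime → p ^ 2 ∣ N → b p = 0

/-- a rational newform -/
structure NF (N : ℕ) (g : V) (b : ℕ → ℤ) : Prop where
  coef : Coef N b
  fix : C.Fix (Gamma0 N) g
  co : ∀ n : ℕ, C.β n g = b n
  al : ∀ p : ℕ, p.Prime → p ∣ N → ∃ w : ℤ, (w = 1 ∨ w = -1) ∧
    (N.factorization p = 1 → b p = -w) ∧
    ∀ γ ∈ Gamma0 (N / p ^ N.factorization p), (p : ℤ) ^ N.factorization p ∣ γ 1 1 →
      C.act (ofZ γ) g = (w : ℂ) • C.act (Vd (1 / p ^ N.factorization p)) g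
  new : ∀ p : ℕ, p.Prime → p ^ 2 ∣ N →
    ∑ i ∈ Finset.range p, C.act (Lw (i * ((N : ℚ) / p))) g = 0
  fricke : ∃ w : ℤ, (w = 1 ∨ w = -1) ∧ C.act ⟨0, -1, N, 0⟩ g = (w : ℂ) • g

/-- the newform and the curve -/
structure Link (W : WeierstrassCurve ℤ) (N : ℕ) (b : ℕ → ℤ) : Prop where
  good : ∀ p : ℕ, p.Prime → ¬ p ∣ N → ¬ (p : ℤ) ∣ W.Δ ∧ b p = ap W p
  mul : ∀ p : ℕ, p.Prime → N.factorization p = 1 →
    (p : ℤ) ∣ W.Δ ∧ ¬ (p : ℤ) ∣ W.c₄ ∧ b p = ap W p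

/-- the product of the hypothetical primes -/
def hyp (W : WeierstrassCurve ℤ) (N : ℕ) : ℕ :=
  ∏ p ∈ N.primeFactors.filter
    (fun p : ℕ => p ^ 2 ∣ N ∧ ¬ ((p : ℤ) ∣ W.Δ ∧ (p : ℤ) ∣ W.c₄)), p

/-! ## Orders at the cusps -/

/-- the height of the vertex `i` for the cusp with denominator `c` -/
def ht (p : ℕ) (c : ℤ) (i : ℕ) : ℤ := if c = 0 then i else min i (2 * padicValInt p c - i)

def low (p : ℕ) (c : ℤ) (d e : ℕ) : ℤ := min (ht p c d) (ht p c (d + e))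

/-- the middle type -/
def Mid (p : ℕ) (c : ℤ) (d e : ℕ) : Prop := 2 ≤ e ∧ ht p c d = ht p c (d + e)

def OrdA (N : ℕ) (g : V) : Prop := ∀ (δ : ℕ) (γ : SZ) (ν : ℚ), 0 < δ →
  C.β ν (C.act (ofZ γ) (C.act (Vd δ) g)) ≠ 0 → ∀ p : ℕ, p.Prime →
    low p (γ 1 0) (δ.factorization p) (N.factorization p) ≤ padicValRat p ν

def OrdB (N : ℕ) (g : V) (s : ℕ → ℕ) : Prop := ∀ (δ : ℕ) (γ : SZ), 0 < δ → ∃ ν : ℚ,
  C.β ν (C.act (ofZ γ) (C.act (Vd δ) g)) ≠ 0 ∧ ∀ p : ℕ, p.Prime →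
    padicValRat p ν ≤ low p (γ 1 0) (δ.factorization p) (N.factorization p) + s p ∧
    (¬ Mid p (γ 1 0) (δ.factorization p) (N.factorization p) →
      padicValRat p ν = low p (γ 1 0) (δ.factorization p) (N.factorization p))

end

/-- the bound for the drop at the middle type -/
def sm (p e : ℕ) : ℕ := if 5 ≤ p ∨ e ≤ 2 then 0 else if p = 3 then 1 else if e ≤ 6 then 2 else 3

/-- local mass -/
def Mp (p e s : ℕ) : ℚ :=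
  if e = 0 then 1 else if e % 2 = 1 then 2 / ((p : ℚ) ^ (e / 2) * (p + 1))
  else (2 + (p - 1) * (p : ℚ) ^ s) / ((p : ℚ) ^ (e / 2) * (p + 1))

def Mtot (N : ℕ) (s : ℕ → ℕ) : ℚ := ∏ p ∈ N.primeFactors, Mp p (N.factorization p) (s p)

/-- the loss at a prime where the support is spread -/
def loss (p e : ℕ) (a : ℤ) (s : ℕ) : ℚ :=
  if e = 0 then
    max (1 / ((p : ℚ) + 1 - |a|)) (max
      (if p = 2 then 3 / (2 * (9 - (a : ℚ) ^ 2))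
        else ((p : ℚ) + 1) ^ 2 / (2 * (p - 1) * ((p + 1) ^ 2 - (a : ℚ) ^ 2)))
      (p / (((p : ℚ) - 1) * ((p + 1) ^ 2 - (a : ℚ) ^ 2))))
  else if e = 1 then (if p = 2 then 1 / 3 else ((p : ℚ) + 1) / (4 * (p - 1)))
  else Mp p (e + 1) 0 / (2 * Mp p e s)

/-- the energy at the middle type, for the middle root -/
def optMid (p k : ℕ) : List (ℚ × ℚ) :=
  if 5 ≤ p then [(((p : ℚ) - 3) / ((p + 1) * (p : ℚ) ^ k), (p : ℚ) ^ k)]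
  else if p = 3 then (if k = 1 then [(1 / 24, 3)] else [(1 / (2 * 3 ^ k), 3 ^ (k - 1))])
  else if k = 1 then [(1 / 6, 2)] else []

/-- local options (weight, width) for the root `i`; the root `0` uses the Atkin-Lehner operator -/
def opts (p e i : ℕ) : List (ℚ × ℚ) :=
  if i = 0 then [(1 / ((p : ℚ) ^ (e - 1) * (p + 1)), (p : ℚ) ^ e),
    (1 / ((p : ℚ) ^ (e - 1) * (p + 1)), 1)]
  else if 2 * i = e then (2 / (((p : ℚ) + 1) * (p : ℚ) ^ i), (p : ℚ) ^ i) :: optMid p i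
  else (p / (((p : ℚ) + 1) * (p : ℚ) ^ (e - i)), (p : ℚ) ^ (e - i)) ::
    (1 / ((p : ℚ) ^ ((e - 2 * i) / 2) * (p + 1) * (p : ℚ) ^ i), (p : ℚ) ^ i) ::
    ((List.range ((e - 2 * i - 1) / 2)).map fun m =>
      (((p : ℚ) - 1) / ((p : ℚ) ^ (m + 1) * (p + 1) * (p : ℚ) ^ (e - i - 2 * (m + 1))),
        (p : ℚ) ^ (e - i - 2 * (m + 1))))

/-- the sum over all choices of options -/
def En (T : ℚ → ℝ) : List (List (ℚ × ℚ)) → ℚ → ℝ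
  | [], X => T X
  | o :: os, X => (o.map fun y => (y.1 : ℝ) * En T os (X * y.2)).sum

/-- the horoball energy -/
def TT (b : ℕ → ℤ) (n₀ : ℕ) (X : ℚ) : ℝ :=
  ∑ n ∈ Finset.range n₀, (b n : ℝ) ^ 2 / n * Real.exp (-(4 * π * n / X))

/-- lower bounds for the energy `ρ` -/
def HoroB (N : ℕ) (b : ℕ → ℤ) (ρ : ℝ) : Prop := ∀ (root : ℕ → ℕ) (l : List ℕ) (n₀ : ℕ),
  l.Nodup → l.toFinset = N.primeFactors → (∀ p ∈ l, 2 * root p ≤ N.factorization p) →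
  π * En (TT b n₀) (l.map fun p => opts p (N.factorization p) (root p)) 1 ≤ ρ

/-- the functional equation on the imaginary axis -/
def FE (N : ℕ) (b : ℕ → ℤ) : Prop := ∃ w : ℤ, (w = 1 ∨ w = -1) ∧ ∀ y : ℝ, 0 < y → ∃ A B : ℝ,
  HasSum (fun n : ℕ => (b n : ℝ) * Real.exp (-(2 * π * n / (N * y)))) A ∧
  HasSum (fun n : ℕ => (b n : ℝ) * Real.exp (-(2 * π * n * y))) B ∧ A = -w * N * y ^ 2 * B

/-- the matrix of the extra invariance at level `256` -/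
def eta256 : Mt := ⟨1, -1 / 8, 32, -3⟩

/-- consequence of the invariance under `eta256` -/
def INV (b : ℕ → ℤ) : Prop := HasSum (fun n : ℕ => (b n : ℝ) * Real.exp (-(π * n / 16)) *
  (Real.cos (π * n / 16) + Real.cos (3 * π * n / 16))) 0

end

end Pool.Agent.MP_b2c033_nt.U
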