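import Mathlib

/-! Modular units on `Y₁(M)` over the rationals, parametrizations of elliptic curves by them, and
the conductor of an elliptic curve over the rationals (algorithm of Tate and formula of Ogg). -/

namespace Pool.Agent.MP_b2c033_nt.U

open UpperHalfPlane hiding I
open WeierstrassCurve
open scoped Real Manifold MatrixGroups

/-- `u` is a modular unit of level `M` over `ℚ`, with `q`-expansion `F` at `∞`: holomorphic and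
without zeros on the upper half plane, invariant under `Γ₁(M)`, meromorphic at every cusp, with
rational `q`-expansion. -/
structure MUnit (M : ℕ) (u : ℍ → ℂ) (F : LaurentSeries ℚ) : Prop where
  hol : MDifferentiable 𝓘(ℂ) 𝓘(ℂ) u
  ne : ∀ z, u z ≠ 0
  inv : ∀ γ ∈ CongruenceSubgroup.Gamma1 M, ∀ z, u (γ • z) = u z
  cusp : ∀ γ : SL(2, ℤ), ∃ κ : ℝ,
    (fun z => u (γ • z)) =O[atImInfty] fun z => Real.exp (κ * z.im)
  exp : ∀ z : ℍ, HasSum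
    (fun n : ℤ => (F.coeff n : ℂ) * Complex.exp (2 * π * Complex.I * z) ^ n) (u z)

/-- The function field of `E` is isomorphic to the field generated by two modular units of
level `M`. -/
def Param (E : WeierstrassCurve ℚ) (M : ℕ) : Prop :=
  ∃ u v F G, MUnit M u F ∧ MUnit M v G ∧
    Nonempty (IntermediateField.adjoin ℚ {F, G} ≃ₐ[ℚ] E.toAffine.FunctionField)

/-- the change of variables `x = x' + r`, `y = y' + s x' + t` -/
def sh (W : WeierstrassCurve ℤ) (r s t : ℤ) : WeierstrassCurve ℤ :=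
  (⟨1, r, s, t⟩ : VariableChange ℤ) • W

/-- the first model in a list that has a given property -/
def pick (W : WeierstrassCurve ℤ) (l : List (WeierstrassCurve ℤ))
    (P : WeierstrassCurve ℤ → Bool) : WeierstrassCurve ℤ :=
  (l.find? P).getD W

/-- the integers `0, …, n - 1` -/
def rg (n : ℕ) : List ℤ := (List.range n).map fun i => (i : ℤ)

/-- Step 7 of the algorithm of Tate: the index `n` of the type `I_n^*`. At stage `j` (the first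
stage is `j = 2`) one has `p ^ j ∣ a₃`, `p ^ (j + 1) ∣ a₄`, `p ^ (2 j) ∣ a₆`. -/
def starIndex (p : ℕ) : ℕ → ℕ → WeierstrassCurve ℤ → ℕ
  | 0, _, _ => 0
  | fuel + 1, j, W =>
    if ¬ (p : ℤ) ∣ (W.a₃ / p ^ j) ^ 2 + 4 * (W.a₆ / p ^ (2 * j)) then 2 * j - 3 else
    let W₁ := pick W ((rg p).map fun t => sh W 0 0 (p ^ j * t))
      fun V => (p : ℤ) ^ (j + 1) ∣ V.a₃ ∧ (p : ℤ) ^ (2 * j + 1) ∣ V.a₆
    if ¬ (p : ℤ) ∣ (W₁.a₄ / p ^ (j + 1)) ^ 2 - 4 * (W₁.a₂ / p) * (W₁.a₆ / p ^ (2 * j + 1)) then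
      2 * j - 2 else
    starIndex p fuel (j + 1) (pick W₁ ((rg p).map fun r => sh W₁ (p ^ j * r) 0 0)
      fun V => (p : ℤ) ^ (j + 2) ∣ V.a₄ ∧ (p : ℤ) ^ (2 * j + 2) ∣ V.a₆)

/-- The algorithm of Tate for a model `W` minimal at `p` with `v = v_p(Δ)`: the number of irreducible components of
the special fibre of the minimal regular model (`1, n, 1, 2, 3, n + 5, 7, 8, 9` for the types
`I_0, I_n, II, III, IV, I_n^*, IV^*, III^*, II^*`). -/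
def components (p v : ℕ) (W : WeierstrassCurve ℤ) : ℕ :=
  if ¬ (p : ℤ) ∣ W.Δ then 1 else
  if ¬ (p : ℤ) ∣ W.c₄ then v else
  let W₁ := pick W ((rg p).flatMap fun r => (rg p).map fun t => sh W r 0 t)
    fun V => (p : ℤ) ∣ V.a₃ ∧ (p : ℤ) ∣ V.a₄ ∧ (p : ℤ) ∣ V.a₆
  if ¬ (p : ℤ) ^ 2 ∣ W₁.a₆ then 1 else
  if ¬ (p : ℤ) ^ 3 ∣ W₁.b₈ then 2 else
  if ¬ (p : ℤ) ^ 3 ∣ W₁.b₆ then 3 else
  let W₂ := pick W₁ ((rg p).flatMap fun s => (rg p).map fun t => sh W₁ 0 s (p * t))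
    fun V => (p : ℤ) ∣ V.a₁ ∧ (p : ℤ) ∣ V.a₂ ∧ (p : ℤ) ^ 2 ∣ V.a₃ ∧ (p : ℤ) ^ 2 ∣ V.a₄ ∧
      (p : ℤ) ^ 3 ∣ V.a₆
  if ¬ (p : ℤ) ∣ Cubic.discr ⟨1, W₂.a₂ / p, W₂.a₄ / p ^ 2, W₂.a₆ / p ^ 3⟩ then 5 else
  let W₃ := pick W₂ ((rg p).map fun r => sh W₂ (p * r) 0 0)
    fun V => (p : ℤ) ^ 3 ∣ V.a₄ ∧ (p : ℤ) ^ 4 ∣ V.a₆
  if ¬ (p : ℤ) ^ 2 ∣ W₃.a₂ then starIndex p v 2 W₃ + 5 else
  if ¬ (p : ℤ) ∣ (W₃.a₃ / p ^ 2) ^ 2 + 4 * (W₃.a₆ / p ^ 4) then 7 else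
  let W₄ := pick W₃ ((rg p).map fun t => sh W₃ 0 0 (p ^ 2 * t))
    fun V => (p : ℤ) ^ 3 ∣ V.a₃ ∧ (p : ℤ) ^ 5 ∣ V.a₆
  if ¬ (p : ℤ) ^ 4 ∣ W₄.a₄ then 8 else 9

/-- the conductor of a global minimal model, by the formula of Ogg `f = v(Δ) - m + 1` -/
def cond (W : WeierstrassCurve ℤ) : ℕ :=
  ∏ p ∈ W.Δ.natAbs.primeFactors, p ^ (padicValInt p W.Δ + 1 - components p (padicValInt p W.Δ) W)

/-- an integral model seen over the rationals -/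
abbrev toQ (W : WeierstrassCurve ℤ) : WeierstrassCurve ℚ := W.map (Int.castRingHom ℚ)

/-- `W` is a reduced global minimal model -/
structure RedMin (W : WeierstrassCurve ℤ) : Prop where
  a₁ : W.a₁ = 0 ∨ W.a₁ = 1
  a₂ : W.a₂ = -1 ∨ W.a₂ = 0 ∨ W.a₂ = 1
  a₃ : W.a₃ = 0 ∨ W.a₃ = 1
  ne : W.Δ ≠ 0
  min : ∀ (W' : WeierstrassCurve ℤ) (C : VariableChange ℚ), C • toQ W = toQ W' → |W.Δ| ≤ |W'.Δ|

/-- `N` is the conductor of `E` -/
def IsConductor (E : WeierstrassCurve ℚ) (N : ℕ) : Prop :=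
  ∃ (W : WeierstrassCurve ℤ) (C : VariableChange ℚ), RedMin W ∧ C • E = toQ W ∧ N = cond W

end Pool.Agent.MP_b2c033_nt.U
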