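import Pool.Agent.MP_b2c033_nt.U.Defs

/-! Every elliptic curve over the rationals has a reduced global minimal model. -/

namespace Pool.Agent.MP_b2c033_nt.U

open WeierstrassCurve

lemma exists_int (E : WeierstrassCurve ℚ) :
    ∃ (W : WeierstrassCurve ℤ) (C : VariableChange ℚ), C • E = toQ W := by
  obtain ⟨d, hd, h⟩ : ∃ d : ℕ, d ≠ 0 ∧ ∀ x ∈ [E.a₁, E.a₂, E.a₃, E.a₄, E.a₆], ∀ k : ℕ, 0 < k →
      ∃ n : ℤ, (n : ℚ) = (d : ℚ) ^ k * x := by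
    refine ⟨E.a₁.den * E.a₂.den * E.a₃.den * E.a₄.den * E.a₆.den, by simp, fun x hx k hk => ?_⟩
    obtain ⟨m, hm⟩ : x.den ∣ E.a₁.den * E.a₂.den * E.a₃.den * E.a₄.den * E.a₆.den := by
      simp only [List.mem_cons, List.not_mem_nil, or_false] at hx
      rcases hx with rfl | rfl | rfl | rfl | rfl
      · exact ((((dvd_refl _).mul_right _).mul_right _).mul_right _).mul_right _
      · exact ((((dvd_refl _).mul_left _).mul_right _).mul_right _).mul_right _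
      · exact (((dvd_refl _).mul_left _).mul_right _).mul_right _
      · exact ((dvd_refl _).mul_left _).mul_right _
      · exact (dvd_refl _).mul_left _
    obtain ⟨j, rfl⟩ : ∃ j, k = j + 1 := ⟨k - 1, by omega⟩
    rw [hm]
    refine ⟨(x.den * m) ^ j * m * x.num, ?_⟩
    have := Rat.den_mul_eq_num x
    push_cast
    rw [← this]; ring
  obtain ⟨n₁, h₁⟩ := h E.a₁ (by simp) 1 (by norm_num)
  obtain ⟨n₂, h₂⟩ := h E.a₂ (by simp) 2 (by norm_num)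
  obtain ⟨n₃, h₃⟩ := h E.a₃ (by simp) 3 (by norm_num)
  obtain ⟨n₄, h₄⟩ := h E.a₄ (by simp) 4 (by norm_num)
  obtain ⟨n₆, h₆⟩ := h E.a₆ (by simp) 6 (by norm_num)
  have hd' : (d : ℚ) ≠ 0 := by exact_mod_cast hd
  refine ⟨⟨n₁, n₂, n₃, n₄, n₆⟩, ⟨(Units.mk0 (d : ℚ) hd')⁻¹, 0, 0, 0⟩, ?_⟩
  ext <;> simp [variableChange_def, h₁, h₂, h₃, h₄, h₆]

lemma toQ_sh (W : WeierstrassCurve ℤ) (r s t : ℤ) :
    toQ (sh W r s t) = (⟨1, r, s, t⟩ : VariableChange ℚ) • toQ W := by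
  ext <;> simp [sh, variableChange_def]

lemma Δ_sh (W : WeierstrassCurve ℤ) (r s t : ℤ) : (sh W r s t).Δ = W.Δ := by
  simp [sh, variableChange_Δ]

lemma exists_red (W : WeierstrassCurve ℤ) : ∃ r s t : ℤ,
    ((sh W r s t).a₁ = 0 ∨ (sh W r s t).a₁ = 1) ∧
    ((sh W r s t).a₂ = -1 ∨ (sh W r s t).a₂ = 0 ∨ (sh W r s t).a₂ = 1) ∧
    ((sh W r s t).a₃ = 0 ∨ (sh W r s t).a₃ = 1) := by
  obtain ⟨s, hs⟩ : ∃ s : ℤ, W.a₁ + 2 * s = 0 ∨ W.a₁ + 2 * s = 1 := ⟨-(W.a₁ / 2), by omega⟩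
  obtain ⟨r, hr⟩ : ∃ r : ℤ, W.a₂ - s * W.a₁ + 3 * r - s ^ 2 = -1 ∨
      W.a₂ - s * W.a₁ + 3 * r - s ^ 2 = 0 ∨ W.a₂ - s * W.a₁ + 3 * r - s ^ 2 = 1 := by
    generalize s * W.a₁ = A
    generalize s ^ 2 = B
    exact ⟨-((W.a₂ - A - B + 1) / 3), by omega⟩
  obtain ⟨t, ht⟩ : ∃ t : ℤ, W.a₃ + r * W.a₁ + 2 * t = 0 ∨ W.a₃ + r * W.a₁ + 2 * t = 1 := by
    generalize r * W.a₁ = A
    exact ⟨-((W.a₃ + A) / 2), by omega⟩
  exact ⟨r, s, t, by simpa [sh, variableChange_def] using hs,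
    by simpa [sh, variableChange_def] using hr, by simpa [sh, variableChange_def] using ht⟩

theorem exists_isConductor (E : WeierstrassCurve ℚ) [E.IsElliptic] : ∃ N, IsConductor E N := by
  classical
  have hex : ∃ n : ℕ, ∃ (W : WeierstrassCurve ℤ) (C : VariableChange ℚ),
      C • E = toQ W ∧ W.Δ.natAbs = n := by
    obtain ⟨W, C, h⟩ := exists_int E
    exact ⟨_, W, C, h, rfl⟩
  obtain ⟨W, C, hC, hn⟩ := Nat.find_spec hex
  obtain ⟨r, s, t, h₁, h₂, h₃⟩ := exists_red W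
  have hE : ((⟨1, r, s, t⟩ : VariableChange ℚ) * C) • E = toQ (sh W r s t) := by
    rw [mul_smul, hC, toQ_sh]
  refine ⟨_, sh W r s t, _, ⟨h₁, h₂, h₃, ?_, fun W' C' h' => ?_⟩, hE, rfl⟩
  · rw [Δ_sh]
    intro h0
    have h1 : (toQ W).Δ = 0 := by rw [map_Δ, h0, map_zero]
    rw [← hC] at h1
    exact (C • E).isUnit_Δ.ne_zero h1
  · have := Nat.find_min' hex ⟨W', C' * ((⟨1, r, s, t⟩ : VariableChange ℚ) * C), by
      rw [mul_smul, hE, h'], rfl⟩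
    rw [Δ_sh, Int.abs_eq_natAbs, Int.abs_eq_natAbs, hn]
    exact_mod_cast this

end Pool.Agent.MP_b2c033_nt.U
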