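import Pool.Agent.MP_b2c033_nt.U.Spec

/-! The functional equation and the extra invariance. -/

namespace Pool.Agent.MP_b2c033_nt.U

open UpperHalfPlane hiding I
open CongruenceSubgroup
open scoped Real

namespace FE

variable {V : Type} [NormedAddCommGroup V] [InnerProductSpace ℂ V] {C : CS V}
  {ι φ : V →ₗ[ℂ] ℍ → ℂ} {N : ℕ} {g : V} {b : ℕ → ℤ}

lemma sum (hR : Realis C ι φ) (h : NF C N g b) (z : ℍ) :
    HasSum (fun n : ℕ => (b n : ℂ) * Complex.exp (2 * π * Complex.I * n * z)) (ι g z) := by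
  have hT : C.act (Tr 1) g = g := by
    have := h.fix (mkZ 1 1 0 1 (by norm_num)) (by simp [Gamma0_mem])
    rwa [show ofZ (mkZ 1 1 0 1 (by norm_num)) = Tr 1 by simp [ofZ, Tr]] at this
  have h0 : ∀ ν : ℚ, ν ∉ Set.range (Nat.cast : ℕ → ℚ) →
      C.β ν g * Complex.exp (2 * π * Complex.I * ν * z) = 0 := by
    intro ν hν
    rw [mul_eq_zero]
    left
    by_contra hne
    have h1 := C.β_Tr 1 ν g
    rw [hT, mul_one] at h1
    have h2 : ee ν = 1 := mul_right_cancel₀ hne (by rw [← h1, one_mul])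
    obtain ⟨n, hn⟩ := Complex.exp_eq_one_iff.1 h2
    have h3 : (ν : ℂ) = n := mul_left_cancel₀ Complex.two_pi_I_ne_zero (by rw [hn]; ring)
    have h4 : ν = n := by exact_mod_cast h3
    have h5 : 0 < ν := lt_of_not_ge fun h => hne (C.β_neg ν g h)
    have h6 : 0 < n := by rw [h4] at h5; exact_mod_cast h5
    exact hν ⟨n.toNat, by rw [h4]; exact_mod_cast Int.toNat_of_nonneg h6.le⟩
  have := (Nat.cast_injective.hasSum_iff h0).2 (hR.sum g z)
  simpa only [Function.comp_def, h.co, Rat.cast_natCast] using this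

lemma re (hR : Realis C ι φ) (h : NF C N g b) (x y : ℝ) (hy : 0 < y) :
    HasSum (fun n : ℕ => (b n : ℝ) * Real.exp (-(2 * π * n * y)) * Real.cos (2 * π * n * x))
      (ι g (ofComplex (x + y * Complex.I))).re := by
  have h1 := Complex.hasSum_re (sum hR h (ofComplex (x + y * Complex.I)))
  refine h1.congr_fun fun n => ?_
  rw [ofComplex_apply_of_im_pos (by simpa using hy)]
  simp [Complex.exp_re, Complex.exp_im, mul_assoc]

lemma act (hR : Realis C ι φ) {x : Mt} (hx : 0 < x.det) {w : ℂ} (h : C.act x g = w • g) (z : ℂ)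
    (hz : 0 < z.im) : w * ι g (ofComplex z) =
      x.det / (x.c * z + x.d) ^ 2 * ι g (ofComplex ((x.a * z + x.b) / (x.c * z + x.d))) := by
  have h1 := congrFun (hR.act x g hx) (ofComplex z)
  rw [h, map_smul, sl, mob] at h1
  have h2 : ((ofComplex z : ℍ) : ℂ) = z := by rw [ofComplex_apply_of_im_pos hz]
  rw [h2] at h1
  exact h1

end FE

theorem s_FE : S_FE := by
  intro V _ _ C ι φ _ hR N g b h
  have hN : (0 : ℝ) < N := by exact_mod_cast h.coef.pos
  refine ⟨?_, fun he => ?_⟩
  · obtain ⟨w, hw, hf⟩ := h.fricke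
    refine ⟨w, hw, fun y hy => ?_⟩
    have h1 := FE.re hR h 0 (1 / (N * y)) (by positivity)
    have h2 := FE.re hR h 0 y hy
    have h3 := FE.act hR (by simpa [Mt.det] using h.coef.pos) hf ((0 : ℝ) + y * Complex.I)
      (by simpa using hy)
    have hN' : (N : ℂ) ≠ 0 := by exact_mod_cast hN.ne'
    have hy' : (y : ℂ) ≠ 0 := by exact_mod_cast hy.ne'
    have e : (((0 : ℚ) : ℂ) * ((0 : ℝ) + y * Complex.I) + (-1 : ℚ)) /
        (((N : ℚ) : ℂ) * ((0 : ℝ) + y * Complex.I) + (0 : ℚ)) =
        (0 : ℝ) + (1 / (N * y) : ℝ) * Complex.I := by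
      push_cast
      simp only [zero_add, add_zero, zero_mul]
      field_simp
      rw [Complex.I_sq]
    simp only at h3
    rw [e] at h3
    refine ⟨_, _, by simpa [div_eq_mul_inv] using h1, by simpa using h2, ?_⟩
    have h4 : ι g (ofComplex ((0 : ℝ) + (1 / (N * y) : ℝ) * Complex.I)) =
        ((-w * N * y ^ 2 : ℝ) : ℂ) * ι g (ofComplex ((0 : ℝ) + y * Complex.I)) := by
      simp only [Mt.det] at h3
      generalize ι g (ofComplex ((0 : ℝ) + (1 / (N * y) : ℝ) * Complex.I)) = A at h3 ⊢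
      push_cast at h3 ⊢
      simp only [zero_add, add_zero, zero_mul, mul_pow, Complex.I_sq] at h3 ⊢
      field_simp at h3
      apply mul_left_cancel₀ hN'
      linear_combination h3
    have h5 := congrArg Complex.re h4
    rw [Complex.re_ofReal_mul] at h5
    simpa using h5
  · have h1 := FE.re hR h (1 / 32) (1 / 32) (by norm_num)
    have h2 := FE.re hR h (3 / 32) (1 / 32) (by norm_num)
    have h3 := FE.act hR (x := eta256) (w := 1) (by norm_num [Mt.det, eta256])
      (by rw [he, one_smul]) ((3 / 32 : ℝ) + (1 / 32 : ℝ) * Complex.I) (by simp)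
    have e0 : (eta256.c : ℂ) * ((3 / 32 : ℝ) + (1 / 32 : ℝ) * Complex.I) + eta256.d =
        Complex.I := by
      simp only [eta256]; push_cast; ring
    have e : ((eta256.a : ℂ) * ((3 / 32 : ℝ) + (1 / 32 : ℝ) * Complex.I) + eta256.b) / Complex.I =
        (1 / 32 : ℝ) + (1 / 32 : ℝ) * Complex.I := by
      rw [div_eq_iff Complex.I_ne_zero]
      simp only [eta256]; push_cast
      linear_combination (-1 / 32 : ℂ) * Complex.I_sq
    rw [e0, e, Complex.I_sq, show (eta256.det : ℂ) = 1 by norm_num [Mt.det, eta256]] at h3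
    have h4 := congrArg Complex.re h3
    have h5 := h1.add h2
    rw [show (ι g (ofComplex ((1 / 32 : ℝ) + (1 / 32 : ℝ) * Complex.I))).re +
      (ι g (ofComplex ((3 / 32 : ℝ) + (1 / 32 : ℝ) * Complex.I))).re = 0 by
        rw [one_mul, div_neg, div_one, neg_one_mul, Complex.neg_re] at h4; linarith] at h5
    refine h5.congr_fun fun n => ?_
    rw [← mul_add]
    congr 3 <;> ring

end Pool.Agent.MP_b2c033_nt.U
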