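import Pool.Agent.MP_b2c033_nt.U.Spec
import Pool.Agent.MP_88847a_mp.H41.Unif

/-! The period lattice exists. -/

namespace Pool.Agent.MP_b2c033_nt.U

theorem s_Lat : S_Lat := fun W hW => by
  refine Pool.Agent.MP_88847a_mp.H41.exists_lattice fun h => hW ?_
  have e : (1728 : ℂ) * W.Δ = W.c₄ ^ 3 - W.c₆ ^ 2 := by exact_mod_cast W.c_relation
  have : (W.Δ : ℂ) = 0 := by linear_combination e / 1728 + h
  exact_mod_cast this

end Pool.Agent.MP_b2c033_nt.U
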