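import Pool.Agent.MP_b2c033_nt.U.Lists

/-! Curves with at most two rational torsion points, by doubling in the `2`-adic numbers. -/

namespace Pool.Agent.MP_b2c033_nt.U

open WeierstrassCurve WeierstrassCurve.Affine

namespace NT

/-- the curve is `y² = X (X² + a X + b)` with `X = x - r` -/
structure Sh (W : Affine ℚ) (r a b : ℤ) : Prop where
  h₁ : W.a₁ = 0
  h₃ : W.a₃ = 0
  h₂ : W.a₂ = a - 3 * r
  h₄ : W.a₄ = b - 2 * a * r + 3 * r ^ 2
  h₆ : W.a₆ = -r ^ 3 + a * r ^ 2 - b * r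

/-- the obstructions modulo `64` -/
def Obs (a b : ZMod (2 ^ 6)) : Prop := (∀ X, X ^ 2 + a * X + b ≠ 0) ∧
  (∀ X, X ^ 2 - b = 0 → ∀ y, y ^ 2 ≠ X * (X ^ 2 + a * X + b)) ∧
  ∀ s y, y ^ 2 = s ^ 2 * ((s ^ 2) ^ 2 + a * s ^ 2 + b) → ∀ t, 2 * y * t ≠ (s ^ 2) ^ 2 - b

instance (a b : ZMod (2 ^ 6)) : Decidable (Obs a b) := by unfold Obs; infer_instance

variable {W : Affine ℚ} {r a b : ℤ} {x y : ℚ}

lemma eqn (h : Sh W r a b) (hP : W.Nonsingular x y) :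
    y ^ 2 = (x - r) * ((x - r) ^ 2 + a * (x - r) + b) := by
  have := (W.equation_iff x y).1 hP.1
  rw [h.h₁, h.h₂, h.h₃, h.h₄, h.h₆] at this
  linear_combination this

lemma dbl (h : Sh W r a b) (hP : W.Nonsingular x y) (hy : y ≠ 0) :
    ∃ x' y' h' s, Point.some x y hP + Point.some x y hP = Point.some x' y' h' ∧ x' - r = s ^ 2 ∧
      2 * y * s = (x - r) ^ 2 - b := by
  have h1 : W.negY x y = -y := by rw [negY, h.h₁, h.h₃]; ring
  have h2 : y ≠ W.negY x y := by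
    rw [h1]
    exact fun e => hy (by linarith)
  refine ⟨_, _, _, ((x - r) ^ 2 - b) / (2 * y), Point.add_self_of_Y_ne h2, ?_, by field_simp⟩
  have h3 := eqn h hP
  rw [addX, slope_of_Y_ne rfl h2, h1, h.h₁, h.h₂, h.h₄, show y - -y = 2 * y by ring]
  field_simp
  linear_combination (-4 * (a + 2 * (x - r))) * h3

section

variable {X Y s : ℚ_[2]}

lemma nm_le (hX : 1 < ‖X‖) : ‖(a : ℚ_[2]) * X + b‖ ≤ ‖X‖ := by
  refine (Padic.nonarchimedean _ _).trans (max_le ?_ ((Padic.norm_int_le_one _).trans hX.le))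
  rw [norm_mul]
  exact mul_le_of_le_one_left (norm_nonneg _) (Padic.norm_int_le_one _)

lemma nm_ne (hX : 1 < ‖X‖) (h : Y ^ 2 = X * (X ^ 2 + a * X + b)) : Y ≠ 0 := by
  rintro rfl
  have h0 : X ≠ 0 := by
    rintro rfl
    norm_num at hX
  have h1 : X ^ 2 = -(a * X + b) := by
    have := (mul_eq_zero.1 (h.symm.trans (by norm_num))).resolve_left h0
    linear_combination this
  have h2 := nm_le (a := a) (b := b) hX
  rw [← norm_neg, ← h1, norm_pow] at h2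
  nlinarith

lemma nm_lt (hX : 1 < ‖X‖) (h : Y ^ 2 = X * (X ^ 2 + a * X + b)) (hs : 2 * Y * s = X ^ 2 - b) :
    ‖X‖ < ‖s ^ 2‖ := by
  have h1 : ‖X‖ < ‖X‖ ^ 2 := by nlinarith
  have h2 : ‖Y‖ ^ 2 ≤ ‖X‖ * ‖X‖ ^ 2 := by
    rw [← norm_pow, h, norm_mul, add_assoc]
    refine mul_le_mul_of_nonneg_left ((Padic.nonarchimedean _ _).trans (max_le (norm_pow _ _).le
      ((nm_le hX).trans h1.le))) (norm_nonneg _)
  have h3 : ‖X‖ ^ 2 ≤ 2⁻¹ * ‖Y‖ * ‖s‖ := by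
    have h4 := Padic.nonarchimedean (X ^ 2 - (b : ℚ_[2])) b
    have h5 : ‖(2 : ℚ_[2])‖ = 2⁻¹ := by exact_mod_cast Padic.norm_p (p := 2)
    rw [sub_add_cancel, ← hs, norm_mul, norm_mul, norm_pow, h5] at h4
    have := Padic.norm_int_le_one (p := 2) b
    rcases le_max_iff.1 h4 with h6 | h6 <;> linarith
  rw [norm_pow]
  have h4 := pow_le_pow_left₀ (by positivity) h3 2
  rw [mul_pow, mul_pow] at h4
  have h5 : (‖X‖ * ‖X‖ ^ 2) * (4 * ‖X‖) ≤ (‖X‖ * ‖X‖ ^ 2) * ‖s‖ ^ 2 := by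
    nlinarith [mul_le_mul_of_nonneg_right h2 (sq_nonneg ‖s‖)]
  have := le_of_mul_le_mul_left h5 (by positivity)
  linarith

lemma lf (h : ‖X‖ ≤ 1) : ∃ z : ℤ_[2], (z : ℚ_[2]) = X := ⟨⟨X, h⟩, rfl⟩

lemma int_of_sq (h : ‖s ^ 2‖ ≤ 1) : ‖s‖ ≤ 1 := by
  rw [norm_pow] at h
  exact (pow_le_one_iff_of_nonneg (norm_nonneg _) two_ne_zero).1 h

lemma int_y (hX : ‖X‖ ≤ 1) (h : Y ^ 2 = X * (X ^ 2 + a * X + b)) : ‖Y‖ ≤ 1 := by
  obtain ⟨X, rfl⟩ := lf (hX)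
  refine int_of_sq ?_
  have : ((X * (X ^ 2 + a * X + b) : ℤ_[2]) : ℚ_[2]) = Y ^ 2 := by
    rw [h]
    push_cast
    rfl
  rw [← this]
  exact PadicInt.norm_le_one _

lemma obs₁ (o : Obs a b) (hX : ‖X‖ ≤ 1) (h : 0 = X * (X ^ 2 + a * X + b)) : X = 0 := by
  refine (mul_eq_zero.1 h.symm).resolve_right fun e => ?_
  obtain ⟨X, rfl⟩ := lf (hX)
  have e' : X ^ 2 + a * X + b = 0 := Subtype.ext (by push_cast; exact e)
  refine o.1 (PadicInt.toZModPow 6 X) ?_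
  simpa using congrArg (PadicInt.toZModPow 6) e'

lemma obs₂ (o : Obs a b) (hX : ‖X‖ ≤ 1) (h : Y ^ 2 = X * (X ^ 2 + a * X + b)) : X ^ 2 - b ≠ 0 := by
  intro e
  have hY := int_y hX h
  obtain ⟨X, rfl⟩ := lf (hX)
  obtain ⟨Y, rfl⟩ := lf (hY)
  have e' : X ^ 2 - b = 0 := Subtype.ext (by push_cast; exact e)
  have h' : Y ^ 2 = X * (X ^ 2 + a * X + b) := Subtype.ext (by push_cast; exact h)
  refine o.2.1 (PadicInt.toZModPow 6 X) ?_ (PadicInt.toZModPow 6 Y) ?_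
  · simpa using congrArg (PadicInt.toZModPow 6) e'
  · simpa using congrArg (PadicInt.toZModPow 6) h'

lemma obs₃ {t : ℚ_[2]} (o : Obs a b) (hs : ‖s ^ 2‖ ≤ 1) (ht : ‖t ^ 2‖ ≤ 1)
    (h : Y ^ 2 = s ^ 2 * ((s ^ 2) ^ 2 + a * s ^ 2 + b)) : 2 * Y * t ≠ (s ^ 2) ^ 2 - b := by
  intro e
  have hY := int_y hs h
  obtain ⟨s, rfl⟩ := lf (int_of_sq hs)
  obtain ⟨t, rfl⟩ := lf (int_of_sq ht)
  obtain ⟨Y, rfl⟩ := lf (hY)
  have e' : 2 * Y * t = (s ^ 2) ^ 2 - b := Subtype.ext (by push_cast; exact e)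
  have h' : Y ^ 2 = s ^ 2 * ((s ^ 2) ^ 2 + a * s ^ 2 + b) := Subtype.ext (by push_cast; exact h)
  refine o.2.2 (PadicInt.toZModPow 6 s) (PadicInt.toZModPow 6 Y) ?_ (PadicInt.toZModPow 6 t) ?_
  · simpa using congrArg (PadicInt.toZModPow 6) h'
  · simpa [map_ofNat] using congrArg (PadicInt.toZModPow 6) e'

end

lemma eqn' (h : Sh W r a b) (hP : W.Nonsingular x y) : (y : ℚ_[2]) ^ 2 =
    ((x - r : ℚ) : ℚ_[2]) * (((x - r : ℚ) : ℚ_[2]) ^ 2 + a * ((x - r : ℚ) : ℚ_[2]) + b) := by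
  exact_mod_cast eqn h hP

/-- the local height -/
noncomputable def hh (r : ℤ) : W.Point → ℝ
  | 0 => 0
  | .some x _ _ => ‖((x - r : ℚ) : ℚ_[2])‖

lemma hh_lt (h : Sh W r a b) {P : W.Point} (hP : 1 < hh r P) : hh r P < hh r (P + P) := by
  rcases P with _ | ⟨x, y, hP'⟩
  · exact absurd hP (by norm_num [hh, ← Point.zero_def])
  have h1 := eqn' h hP'
  obtain ⟨x', y', h', s, e, e1, e2⟩ := dbl h hP' (by exact_mod_cast nm_ne hP h1)
  rw [e]
  show ‖_‖ < ‖((x' - r : ℚ) : ℚ_[2])‖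
  rw [e1, Rat.cast_pow]
  exact nm_lt hP h1 (by exact_mod_cast e2)

lemma hh_le (h : Sh W r a b) {P : W.Point} (hP : IsOfFinAddOrder P) : hh r P ≤ 1 := by
  by_contra hc
  push Not at hc
  have e : ∀ k : ℕ, 2 ^ (k + 1) • P = 2 ^ k • P + 2 ^ k • P := fun k => by
    rw [pow_succ, mul_two, add_nsmul]
  have h1 : ∀ k : ℕ, 1 < hh r (2 ^ k • P) := fun k => by
    induction k with
    | zero => simpa using hc
    | succ k ih => exact e k ▸ ih.trans (hh_lt h ih)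
  have h2 : StrictMono fun k : ℕ => hh r (2 ^ k • P) :=
    strictMono_nat_of_lt_succ fun k => e k ▸ hh_lt h (h1 k)
  exact Set.infinite_of_injective_forall_mem (f := fun k : ℕ => 2 ^ k • P)
    (fun i j hij => h2.injective (congrArg (hh r) hij))
    (fun k => (AddSubmonoid.mem_multiples_iff _ _).2 ⟨_, rfl⟩) hP.finite_multiples

lemma tors (h : Sh W r a b) (o : Obs a b) (hP : W.Nonsingular x y)
    (ht : IsOfFinAddOrder (Point.some x y hP)) : x = r ∧ y = 0 := by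
  have two : ∀ {x y : ℚ} {hP : W.Nonsingular x y}, IsOfFinAddOrder (Point.some x y hP) → y = 0 →
      x - r = 0 := fun {x y hP} ht hy => by
    have h1 := eqn' h hP
    rw [hy, Rat.cast_zero, zero_pow two_ne_zero] at h1
    exact_mod_cast obs₁ o (hh_le h ht) h1
  by_cases hy : y = 0
  · exact ⟨sub_eq_zero.1 (two ht hy), hy⟩
  obtain ⟨x', y', h', s, e, e1, e2⟩ := dbl h hP hy
  have ht' := e ▸ ht.add ht
  by_cases hy' : y' = 0
  · rw [two ht' hy'] at e1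
    rw [pow_eq_zero_iff two_ne_zero |>.1 e1.symm, mul_zero] at e2
    exact (obs₂ o (hh_le h ht) (eqn' h hP) (by exact_mod_cast e2.symm)).elim
  obtain ⟨x'', y'', h'', t, f, f1, f2⟩ := dbl h h' hy'
  have a1 : ‖((x' - r : ℚ) : ℚ_[2])‖ ≤ 1 := hh_le h ht'
  have ht'' := f ▸ ht'.add ht'
  have a2 : ‖((x'' - r : ℚ) : ℚ_[2])‖ ≤ 1 := hh_le h ht''
  have a3 := eqn' h h'
  rw [e1, Rat.cast_pow] at a1 a3
  rw [f1, Rat.cast_pow] at a2
  rw [e1] at f2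
  exact (obs₃ o a1 a2 a3 (by exact_mod_cast f2)).elim

lemma not_tors3 {V : WeierstrassCurve ℤ} (r a b : ℤ) (h : V.a₁ = 0 ∧ V.a₃ = 0 ∧ V.a₂ = a - 3 * r ∧
    V.a₄ = b - 2 * a * r + 3 * r ^ 2 ∧ V.a₆ = -r ^ 3 + a * r ^ 2 - b * r) (o : Obs a b) :
    ¬Tors3 V := by
  obtain ⟨h1, h2, h3, h4, h5⟩ := h
  have s : Sh (toQ V).toAffine r a b := by
    constructor <;> simp [h1, h2, h3, h4, h5]
  rintro ⟨_ | ⟨x, y, hP⟩, _ | ⟨x', y', hQ⟩, p, q, ne, tp, tq⟩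
  · exact p rfl
  · exact p rfl
  · exact q rfl
  obtain ⟨rfl, rfl⟩ := tors s o hP tp
  obtain ⟨rfl, rfl⟩ := tors s o hQ tq
  exact ne rfl

end NT

open NT in
theorem s_noTors : S_NoTors torL := by
  intro l hl
  simp only [torL, List.mem_cons, List.not_mem_nil, or_false] at hl
  rcases hl with rfl | rfl | rfl | rfl | rfl | rfl | rfl | rfl | rfl | rfl | rfl
  · exact not_tors3 (-5) (-14) 1 (by decide) (by decide +kernel)
  · exact not_tors3 1 2 5 (by decide) (by decide +kernel)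
  · exact not_tors3 (-1) (-4) 1 (by decide) (by decide +kernel)
  · exact not_tors3 1 2 4 (by decide) (by decide +kernel)
  · exact not_tors3 1 4 1 (by decide) (by decide +kernel)
  · exact not_tors3 (-1) (-2) 4 (by decide) (by decide +kernel)
  · exact not_tors3 (-1) (-4) 2 (by decide) (by decide +kernel)
  · exact not_tors3 1 4 2 (by decide) (by decide +kernel)
  · exact not_tors3 0 0 (-2) (by decide) (by decide +kernel)
  · exact not_tors3 0 0 2 (by decide) (by decide +kernel)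
  · exact not_tors3 2 5 5 (by decide) (by decide +kernel)

end Pool.Agent.MP_b2c033_nt.U
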