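import Pool.Agent.MP_b2c033_nt.U.Core

/-! The statements of the blocks of the level theorem. -/

namespace Pool.Agent.MP_b2c033_nt.U

open UpperHalfPlane hiding I
open WeierstrassCurve CongruenceSubgroup Polynomial
open scoped Real Manifold MatrixGroups Polynomial.Bivariate Topology

noncomputable section

/-! ## Elliptic functions attached to the function field -/

def wx (W : WeierstrassCurve ℤ) (L : PeriodPair) (w : ℂ) : ℂ := L.weierstrassP w - W.b₂ / 12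

def wy (W : WeierstrassCurve ℤ) (L : PeriodPair) (w : ℂ) : ℂ :=
  (L.derivWeierstrassP w - W.a₁ * wx W L w - W.a₃) / 2

/-- the value of a polynomial in `x, y` at the point with parameter `w` -/
def evW (W : WeierstrassCurve ℤ) (L : PeriodPair) (P : ℚ[X][Y]) (w : ℂ) : ℂ :=
  (P.map (mapRingHom (algebraMap ℚ ℂ))).evalEval (wx W L w) (wy W L w)

/-- the class of a polynomial in the function field -/
def cl (W : WeierstrassCurve ℤ) (P : ℚ[X][Y]) : (toQ W).toAffine.FunctionField :=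
  algebraMap (toQ W).toAffine.CoordinateRing _ (Affine.CoordinateRing.mk (toQ W).toAffine P)

/-- `P₁ / Q₁` and `P₂ / Q₂` generate the function field -/
structure Gen (W : WeierstrassCurve ℤ) (P₁ Q₁ P₂ Q₂ : ℚ[X][Y]) : Prop where
  p₁ : cl W P₁ ≠ 0
  q₁ : cl W Q₁ ≠ 0
  p₂ : cl W P₂ ≠ 0
  q₂ : cl W Q₂ ≠ 0
  top : IntermediateField.adjoin ℚ {cl W P₁ / cl W Q₁, cl W P₂ / cl W Q₂} = ⊤

/-- a zero or a pole of `P / Q` -/
def Bad (W : WeierstrassCurve ℤ) (L : PeriodPair) (P Q : ℚ[X][Y]) (s : ℂ) : Prop :=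
  meromorphicOrderAt (fun w => evW W L P w / evW W L Q w) s ≠ 0

/-- pairwise inequivalent modulo the lattice -/
def Ineq (L : PeriodPair) (S : Finset ℂ) : Prop := ∀ s ∈ S, ∀ t ∈ S, s - t ∈ lat L → s = t

section

variable {V : Type} [NormedAddCommGroup V] [InnerProductSpace ℂ V] (C : CS V)

/-- the form attached to a parametrization -/
structure Datum (Λ : AddSubgroup ℂ) (M : ℕ) (F : V) : Prop where
  pos : 0 < M
  ne : F ≠ 0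
  fix : C.Fix (Gamma1 M) F
  rat : C.Rat F
  per : C.Per (Gamma1 M) F Λ

/-- `u = (P / Q)(ψ)` away from the poles -/
def Thru (W : WeierstrassCurve ℤ) (L : PeriodPair) (P Q : ℚ[X][Y]) (ψ u : ℍ → ℂ) : Prop :=
  ∀ z, ψ z ∉ lat L → evW W L Q (ψ z) ≠ 0 → u z = evW W L P (ψ z) / evW W L Q (ψ z)

/-- one term -/
def Single (g X : V) : Prop := ∃ (k : ℤ) (ε δ : ℕ), ε ≤ 1 ∧ 0 < δ ∧
  X = (k : ℂ) • C.act (Tr (ε / 2) * Vd δ) g

end

/-- the inequality for a combination whose support is spread at some prime -/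
def Multi (W : WeierstrassCurve ℤ) (N : ℕ) (b : ℕ → ℤ) (Ω ρ : ℝ) (n : ℕ) (s : ℕ → ℕ) : Prop :=
  ∃ p : ℕ, p.Prime ∧ n * (hyp W N : ℝ) ^ 2 * ρ ≤
    Ω * ((loss p (N.factorization p) (b p) (s p) : ℚ) * (Mtot N s : ℚ))

/-- the general bound for the drops -/
def smN (N : ℕ) (p : ℕ) : ℕ := sm p (N.factorization p)

def mkW (l : ℤ × ℤ × ℤ × ℤ × ℤ) : WeierstrassCurve ℤ := ⟨l.1, l.2.1, l.2.2.1, l.2.2.2.1, l.2.2.2.2⟩

/-! ## The blocks -/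

/-- A0: averages -/
def S_Av : Prop := AvFacts

/-- A1: the model -/
def S_Real : Prop := ∃ (V : Type) (_ : NormedAddCommGroup V) (_ : InnerProductSpace ℂ V)
  (C : CS V) (ι φ : V →ₗ[ℂ] ℍ → ℂ), Realis C ι φ

/-- a statement about every realised space -/
def ForR (P : ∀ (V : Type) [NormedAddCommGroup V] [InnerProductSpace ℂ V],
    CS V → (V →ₗ[ℂ] ℍ → ℂ) → Prop) : Prop :=
  ∀ (V : Type) [NormedAddCommGroup V] [InnerProductSpace ℂ V] (C : CS V)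
    (ι φ : V →ₗ[ℂ] ℍ → ℂ), AvFacts → Realis C ι φ → P V C φ

/-- a statement about every abstract space -/
def ForG (P : ∀ (V : Type) [NormedAddCommGroup V] [InnerProductSpace ℂ V], CS V → Prop) : Prop :=
  ∀ (V : Type) [NormedAddCommGroup V] [InnerProductSpace ℂ V] (C : CS V), C.Good → P V C

/-- A2 -/
def S_Val : Prop := ForR fun _ _ _ C _ => C.Val
/-- A3 -/
def S_Horo : Prop := ForR fun _ _ _ C _ => C.Horo
/-- A4 -/
def S_Gal0 : Prop := ForR fun _ _ _ C _ => C.Gal0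
/-- A4 -/
def S_Gal1 : Prop := ForR fun _ _ _ C _ => C.Gal1

/-- A5 -/
def S_Deg : Prop := ForR fun V _ _ C φ => ∀ (L : PeriodPair) (M : ℕ) (F : V) (S : Finset ℂ)
  (m : ℝ), Datum C (lat L) M F → Ineq L S → (∀ z, ∀ s ∈ S, φ F z - s ∉ lat L) → C.MassLe F m →
    S.card * ‖F‖ ^ 2 ≤ covol L * m

/-- A6 -/
def S_FE : Prop := ForR fun V _ _ C _ => ∀ (N : ℕ) (g : V) (b : ℕ → ℤ), NF C N g b →
  FE N b ∧ (C.act eta256 g = g → INV b)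

/-- A7 -/
def S_Lat : Prop := ∀ W : WeierstrassCurve ℤ, W.Δ ≠ 0 → ∃ L, IsLat W L
/-- A7 -/
def S_Vol : Prop := ∀ (W : WeierstrassCurve ℤ) (L : PeriodPair), W.Δ ≠ 0 → IsLat W L →
  Vol W (covol L)

/-- B0: nonzero elements of the coordinate ring are nonzero meromorphic functions -/
def S_Ev : Prop := ∀ (W : WeierstrassCurve ℤ) (L : PeriodPair) (P : ℚ[X][Y]), W.Δ ≠ 0 →
  IsLat W L → (∀ w, MeromorphicAt (evW W L P) w) ∧
    (cl W P = 0 → ∀ w, w ∉ lat L → evW W L P w = 0) ∧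
    (cl W P ≠ 0 → ∀ w, ∀ᶠ w' in 𝓝[≠] w, evW W L P w' ≠ 0)

/-- B1 -/
def S_Par : Prop := S_Ev → ForR fun V _ _ C φ => ∀ (W : WeierstrassCurve ℤ) (L : PeriodPair)
  (M : ℕ), W.Δ ≠ 0 → IsLat W L → 0 < M → Param (toQ W) M →
    ∃ (F : V) (w₀ : ℂ) (P₁ Q₁ P₂ Q₂ : ℚ[X][Y]) (u v : ℍ → ℂ) (Fu Fv : LaurentSeries ℚ),
      Datum C (lat L) M F ∧ Gen W P₁ Q₁ P₂ Q₂ ∧ MUnit M u Fu ∧ MUnit M v Fv ∧
      Nonempty (IntermediateField.adjoin ℚ {Fu, Fv} ≃ₐ[ℚ] (toQ W).toAffine.FunctionField) ∧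
      Thru W L P₁ Q₁ (fun z => φ F z + w₀) u ∧ Thru W L P₂ Q₂ (fun z => φ F z + w₀) v

/-- B2: a unit avoids the zeros and poles -/
def S_Avoid : Prop := S_Ev → ForR fun V _ _ _ φ => ∀ (W : WeierstrassCurve ℤ) (L : PeriodPair)
  (M : ℕ) (F : V) (w₀ : ℂ) (P Q : ℚ[X][Y]) (u : ℍ → ℂ) (Fu : LaurentSeries ℚ), W.Δ ≠ 0 →
    IsLat W L → F ≠ 0 → cl W P ≠ 0 → cl W Q ≠ 0 → MUnit M u Fu →
    Thru W L P Q (fun z => φ F z + w₀) u → ∀ s, Bad W L P Q s → ∀ z, φ F z + w₀ - s ∉ lat L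

/-- B3: at least three bad points -/
def S_Three : Prop := S_Ev → ∀ (W : WeierstrassCurve ℤ) (L : PeriodPair) (P₁ Q₁ P₂ Q₂ : ℚ[X][Y]),
  W.Δ ≠ 0 → IsLat W L → Gen W P₁ Q₁ P₂ Q₂ → ∃ S : Finset ℂ, Ineq L S ∧ S.card = 3 ∧
    ∀ s ∈ S, Bad W L P₁ Q₁ s ∨ Bad W L P₂ Q₂ s

/-- B4: exactly three bad points force torsion -/
def S_Tors : Prop := S_Ev → ∀ (W : WeierstrassCurve ℤ) (L : PeriodPair) (P₁ Q₁ P₂ Q₂ : ℚ[X][Y])
  (S : Finset ℂ), W.Δ ≠ 0 → IsLat W L → Gen W P₁ Q₁ P₂ Q₂ → Ineq L S → S.card = 3 →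
    (∀ s ∈ S, Bad W L P₁ Q₁ s ∨ Bad W L P₂ Q₂ s) →
    (∀ s, Bad W L P₁ Q₁ s ∨ Bad W L P₂ Q₂ s → ∃ t ∈ S, s - t ∈ lat L) → Tors3 W

/-- B5: descent -/
def S_Desc : Prop := S_Ev → ForR fun V _ _ C φ => ∀ (W : WeierstrassCurve ℤ) (L : PeriodPair)
  (M N : ℕ) (F g : V) (w₀ : ℂ) (P₁ Q₁ P₂ Q₂ : ℚ[X][Y]) (u v : ℍ → ℂ) (Fu Fv : LaurentSeries ℚ)
  (k : ℂ), W.Δ ≠ 0 → IsLat W L → Datum C (lat L) M F → Gen W P₁ Q₁ P₂ Q₂ → MUnit M u Fu →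
    MUnit M v Fv →
    Nonempty (IntermediateField.adjoin ℚ {Fu, Fv} ≃ₐ[ℚ] (toQ W).toAffine.FunctionField) →
    Thru W L P₁ Q₁ (fun z => φ F z + w₀) u → Thru W L P₂ Q₂ (fun z => φ F z + w₀) v →
    0 < N → C.Fix (Gamma0 N) g → (∃ X, Single C g X ∧ F = k • X) → Param (toQ W) N

/-- B6: changes of variables -/
def S_Var : Prop := ∀ (E : WeierstrassCurve ℚ) (c : VariableChange ℚ),
  Nonempty ((c • E).toAffine.FunctionField ≃ₐ[ℚ] E.toAffine.FunctionField)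

/-- H -/
def S_Hon : Prop := ForR fun _ _ _ C _ => ∀ (W : WeierstrassCurve ℤ) (L : PeriodPair),
  RedMin W → IsLat W L → Hon C W (lat L)

/-- H4 -/
def S_Ap : Prop := ∀ W : WeierstrassCurve ℤ, W.Δ ≠ 0 → ApFacts W

/-- N -/
def S_New : Prop := ForG fun V _ _ C => ∀ (W : WeierstrassCurve ℤ) (Λ : AddSubgroup ℂ) (M : ℕ)
  (F : V), ApFacts W → Hon C W Λ → Datum C Λ M F →
    ∃ (N : ℕ) (g : V) (b : ℕ → ℤ) (c : ℕ →₀ ℤ), NF C N g b ∧ Link W N b ∧ c ≠ 0 ∧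
      0 ∉ c.support ∧ F = (hyp W N : ℂ) • C.comb g c

/-- L: orders -/
def S_Ord : Prop := ForG fun V _ _ C => ∀ (N : ℕ) (g : V) (b : ℕ → ℤ), NF C N g b →
  OrdA C N g ∧ OrdB C N g (smN N) ∧
    (N = 256 → C.act eta256 g ≠ g → OrdB C N g fun _ => 2)

/-- L: energy -/
def S_HoroB : Prop := ForG fun V _ _ C => ∀ (N : ℕ) (g : V) (b : ℕ → ℤ), NF C N g b →
  HoroB N b (‖g‖ ^ 2)

/-- L: valence -/
def S_ValN : Prop := ForG fun V _ _ C => ∀ (N : ℕ) (g : V) (b : ℕ → ℤ), NF C N g b →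
  OrdA C N g → Mtot N (fun _ => 0) ≤ 1 / 6

/-- T -/
def S_Tree : Prop := ForG fun V _ _ C => ∀ (N : ℕ) (g : V) (b : ℕ → ℤ) (s : ℕ → ℕ)
  (c : ℕ →₀ ℤ), NF C N g b → OrdA C N g → OrdB C N g s → c ≠ 0 → 0 ∉ c.support →
    ∃ m : ℝ, C.MassLe (C.comb g c) m ∧ m * ‖g‖ ^ 2 ≤ (Mtot N s : ℚ) * ‖C.comb g c‖ ^ 2 ∧
      (Single C g (C.comb g c) ∨ ∃ p : ℕ, p.Prime ∧ m * ‖g‖ ^ 2 ≤
        ((loss p (N.factorization p) (b p) (s p) : ℚ) * (Mtot N s : ℚ)) * ‖C.comb g c‖ ^ 2)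

/-- C, for a list `pos` of curves with a known parametrization and a list `tor` of curves with
at most two torsion points -/
def S_Check (pos tor : List (ℤ × ℤ × ℤ × ℤ × ℤ)) : Prop :=
  ∀ (W : WeierstrassCurve ℤ) (Ω ρ : ℝ) (N : ℕ) (b : ℕ → ℤ), RedMin W → ApFacts W → Vol W Ω →
    Coef N b → Link W N b → FE N b → HoroB N b ρ → Mtot N (fun _ => 0) ≤ 1 / 6 →
    3 * (hyp W N : ℝ) ^ 2 * ρ ≤ Ω * (Mtot N (smN N) : ℚ) →
    N = cond W ∧ ∀ n : ℕ, (n = 3 ∧ W ∉ tor.map mkW) ∨ n = 4 → Multi W N b Ω ρ n (smN N) →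
      (N = 256 → INV b ∨ Multi W N b Ω ρ n fun _ => 2) → W ∈ pos.map mkW

def S_NoTors (tor : List (ℤ × ℤ × ℤ × ℤ × ℤ)) : Prop := ∀ l ∈ tor, ¬ Tors3 (mkW l)

def S_Pos (pos : List (ℤ × ℤ × ℤ × ℤ × ℤ)) : Prop :=
  ∀ l ∈ pos, Param (toQ (mkW l)) (cond (mkW l))

/-- the goal -/
def Goal : Prop := ∀ (E : WeierstrassCurve ℚ) (N N' : ℕ), IsConductor E N → 0 < N' →
  Param E N' → Param E N

end

end Pool.Agent.MP_b2c033_nt.U
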