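import Pool.Agent.MP_b2c033_nt.U.Ind
import Pool.Agent.MP_b2c033_nt.U.Spec

/-! The valence inequality for a newform. -/

namespace Pool.Agent.MP_b2c033_nt.U

open CongruenceSubgroup
open scoped MatrixGroups

noncomputable section

namespace ValNAux

/-- a positive rational with bounded valuations is not small -/
theorem inv_le (s : Finset ℕ) (d : ℕ → ℕ) (hs : ∀ p ∈ s, p.Prime) (ν : ℚ) (hν : 0 < ν)
    (h : ∀ p : ℕ, p.Prime → -(d p : ℤ) ≤ padicValRat p ν) (h0 : ∀ p, p.Prime → p ∉ s → d p = 0) :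
    ((∏ p ∈ s, p ^ d p : ℕ) : ℚ)⁻¹ ≤ ν := by
  have hd : ν.den ∣ ∏ p ∈ s, p ^ d p := by
    rw [Nat.dvd_iff_prime_pow_dvd_dvd]
    intro p k hp hk
    rcases Nat.eq_zero_or_pos k with rfl | hk0
    · simp
    have := Fact.mk hp
    have h1 : k ≤ padicValNat p ν.den := (padicValNat_dvd_iff_le ν.den_nz).1 hk
    have h2 : ¬ (p : ℤ) ∣ ν.num := by
      intro h3
      have h4 : p ∣ ν.num.natAbs := Int.natCast_dvd.1 h3
      have h5 : p ∣ ν.den := (dvd_pow_self p hk0.ne').trans hk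
      exact hp.one_lt.ne' (Nat.eq_one_of_dvd_coprimes ν.reduced h4 h5)
    have h3 := h p hp
    rw [padicValRat, padicValInt.eq_zero_of_not_dvd h2] at h3
    have h4 : k ≤ d p := by omega
    have h5 : p ∈ s := by
      by_contra h6
      have := h0 p hp h6
      omega
    exact (pow_dvd_pow p h4).trans (Finset.dvd_prod_of_mem (fun p => p ^ d p) h5)
  have hD : 0 < ∏ p ∈ s, p ^ d p := Finset.prod_pos fun p hp => pow_pos (hs p hp).pos _
  have h1 : (ν.den : ℚ) ≤ ((∏ p ∈ s, p ^ d p : ℕ) : ℚ) := by exact_mod_cast Nat.le_of_dvd hD hd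
  have h2 : (0 : ℚ) < ν.den := by exact_mod_cast ν.den_pos
  have h3 : (1 : ℚ) ≤ ν.num := by exact_mod_cast Rat.num_pos.2 hν
  calc ((∏ p ∈ s, p ^ d p : ℕ) : ℚ)⁻¹ ≤ (ν.den : ℚ)⁻¹ := inv_anti₀ h2 h1
    _ = 1 / ν.den := (one_div _).symm
    _ ≤ ν.num / ν.den := div_le_div_of_nonneg_right h3 h2.le
    _ = ν := Rat.num_div_den ν

theorem sum_low (x : ℝ) (hx : 0 < x) (e m : ℕ) (h : 2 * m ≤ e) :
    (x ^ (e - 2 * 0))⁻¹ + ∑ n ∈ Finset.range m,
      ((x ^ (e - 2 * (n + 1)))⁻¹ - (x ^ (e - 2 * n))⁻¹) / (x ^ n * (x + 1)) = x ^ m / x ^ e := by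
  induction m with
  | zero => simp
  | succ m ih =>
    rw [Finset.sum_range_succ, ← add_assoc, ih (by omega)]
    obtain ⟨r, rfl⟩ : ∃ r, e = 2 * (m + 1) + r := ⟨e - 2 * (m + 1), by omega⟩
    rw [show 2 * (m + 1) + r - 2 * (m + 1) = r by omega,
      show 2 * (m + 1) + r - 2 * m = r + 2 by omega]
    field_simp
    ring

theorem sum_top (x : ℝ) (e K m : ℕ) (h : e ≤ 2 * K) (hm : K ≤ m) :
    ∑ n ∈ Finset.range m, ((x ^ (e - 2 * (n + 1)))⁻¹ - (x ^ (e - 2 * n))⁻¹) / (x ^ n * (x + 1))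
      = ∑ n ∈ Finset.range K,
        ((x ^ (e - 2 * (n + 1)))⁻¹ - (x ^ (e - 2 * n))⁻¹) / (x ^ n * (x + 1)) := by
  symm
  apply Finset.sum_subset (Finset.range_subset_range.2 hm)
  intro n _ hn
  rw [Finset.mem_range] at hn
  rw [show e - 2 * (n + 1) = 0 by omega, show e - 2 * n = 0 by omega]
  simp

theorem sum_Mp (p e : ℕ) (hp : 0 < p) (he : e ≠ 0) :
    ((p : ℝ) ^ (e - 2 * 0))⁻¹ + ∑ n ∈ Finset.range e,
      (((p : ℝ) ^ (e - 2 * (n + 1)))⁻¹ - ((p : ℝ) ^ (e - 2 * n))⁻¹) / ((p : ℝ) ^ n * (p + 1))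
        = (Mp p e 0 : ℚ) := by
  have hx : (0 : ℝ) < p := by exact_mod_cast hp
  rw [Mp, if_neg he]
  rcases Nat.even_or_odd' e with ⟨k, rfl | rfl⟩
  · rw [sum_top (p : ℝ) (2 * k) k (2 * k) le_rfl (by omega), sum_low _ hx _ k le_rfl,
      if_neg (by omega), show 2 * k / 2 = k by omega]
    push_cast
    field_simp
    ring
  · rw [sum_top (p : ℝ) (2 * k + 1) (k + 1) (2 * k + 1) (by omega) (by omega),
      Finset.sum_range_succ, ← add_assoc, sum_low _ hx _ k (by omega), if_pos (by omega),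
      show (2 * k + 1) / 2 = k by omega, show 2 * k + 1 - 2 * (k + 1) = 0 by omega,
      show 2 * k + 1 - 2 * k = 1 by omega]
    push_cast
    field_simp
    ring

end ValNAux

open ValNAux in
theorem s_ValN : S_ValN := by
  intro V _ _ C hG N g b hN hO
  have hpos := hN.coef.pos
  have hg : g ≠ 0 := by
    rintro rfl
    have := hN.co 1
    rw [hN.coef.one] at this
    simp at this
  have hpr : ∀ p ∈ N.primeFactors, p.Prime := fun p hp => Nat.prime_of_mem_primeFactors hp
  have hdv : ∀ p ∈ N.primeFactors, p ^ N.factorization p ∣ N := fun p _ => Nat.ordProj_dvd N p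
  have h := hG.val g N (fun γ => ∏ p ∈ N.primeFactors,
      ((p : ℝ) ^ (N.factorization p - 2 * jv p (N.factorization p) (γ 1 0)))⁻¹) hg hpos
    (Lev.prod _ fun p hp => (lev_jv (hpr p hp) (N.factorization p)
      fun j => ((p : ℝ) ^ (N.factorization p - 2 * j))⁻¹).mono (hdv p hp)) (by
      intro γ ν hν
      by_contra hne
      have hν0 : 0 < ν := by
        by_contra h0
        exact hne (C.β_neg ν _ (not_lt.1 h0))
      have h1 : C.act (Vd ((1 : ℕ) : ℚ)) g = g := by
        have := C.act_sc 1 g one_ne_zero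
        simpa [Vd] using this
      have h2 := hO 1 γ ν one_pos (by rwa [h1])
      have h3 := inv_le N.primeFactors
        (fun p => N.factorization p - 2 * jv p (N.factorization p) (γ 1 0)) hpr ν hν0 (by
          intro p hp
          refine le_trans ?_ (h2 p hp)
          rw [low, Nat.factorization_one, Finsupp.zero_apply, zero_add,
            ht_eq (Nat.zero_le (N.factorization p)), ht_eq (le_refl (N.factorization p))]
          omega) (by
          intro p _ hp'
          rw [← Nat.support_factorization, Finsupp.notMem_support_iff] at hp'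
          omega)
      have h4 : (((∏ p ∈ N.primeFactors,
          p ^ (N.factorization p - 2 * jv p (N.factorization p) (γ 1 0)) : ℕ) : ℝ))⁻¹ ≤ ν := by
        have := (Rat.cast_le (K := ℝ)).2 h3
        rwa [Rat.cast_inv, Rat.cast_natCast] at this
      rw [Finset.prod_inv_distrib] at hν
      push_cast at h4
      linarith)
  rw [Av_prod_jv N.primeFactors hpr _ hpos hdv
    (fun p j => ((p : ℝ) ^ (N.factorization p - 2 * j))⁻¹),
    Finset.prod_congr rfl fun p hp => sum_Mp p (N.factorization p) (hpr p hp).pos (by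
      rw [← Nat.support_factorization, Finsupp.mem_support_iff] at hp
      exact hp)] at h
  have h' : ((Mtot N (fun _ => 0) : ℚ) : ℝ) ≤ ((1 / 6 : ℚ) : ℝ) := by
    rw [Mtot]
    push_cast
    exact h
  exact_mod_cast h'

end

end Pool.Agent.MP_b2c033_nt.U
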