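import Pool.Agent.MP_b2c033_nt.U.Spec

/-! Block B6: a change of variables gives an isomorphism of function fields. -/

namespace Pool.Agent.MP_b2c033_nt.U

open WeierstrassCurve Polynomial
open scoped Polynomial.Bivariate

theorem s_Var : S_Var := by
  intro E c
  have hu : IsUnit (C (c.u : ℚ) : ℚ[X]) := c.u.isUnit.map C
  let _ := (c.u.isUnit.pow 2).invertible
  let _ := (hu.pow 3).invertible
  let σ : ℚ[X][Y] ≃ₐ[ℚ] ℚ[X][Y] := (mapAlgEquiv (algEquivCMulXAddC ((c.u : ℚ) ^ 2) c.r)).trans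
    ((algEquivCMulXAddC (C (c.u : ℚ) ^ 3) (C ((c.u : ℚ) ^ 2 * c.s) * X + C c.t)).restrictScalars ℚ)
  have e : ∀ k : ℕ, ∀ x : ℚ, (c.u : ℚ) ^ k * (((c.u⁻¹ : ℚˣ) : ℚ) ^ k * x) = x := fun k x => by
    rw [← mul_assoc, ← mul_pow, Units.mul_inv, one_pow, one_mul]
  have h1 := congrArg (fun x => (C (C x) : ℚ[X][Y])) ((congrArg _ (variableChange_a₁ E c)).trans
    (Units.mul_inv_cancel_left c.u _))
  have h2 := congrArg (fun x => (C (C x) : ℚ[X][Y]))
    ((congrArg _ (variableChange_a₂ E c)).trans (e 2 _))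
  have h3 := congrArg (fun x => (C (C x) : ℚ[X][Y]))
    ((congrArg _ (variableChange_a₃ E c)).trans (e 3 _))
  have h4 := congrArg (fun x => (C (C x) : ℚ[X][Y]))
    ((congrArg _ (variableChange_a₄ E c)).trans (e 4 _))
  have h6 := congrArg (fun x => (C (C x) : ℚ[X][Y]))
    ((congrArg _ (variableChange_a₆ E c)).trans (e 6 _))
  have h : σ E.toAffine.polynomial = C (C (c.u : ℚ)) ^ 6 * (c • E).toAffine.polynomial := by
    simp only [map_mul, map_add, map_sub, map_pow, map_ofNat] at h1 h2 h3 h4 h6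
    simp [σ, Affine.polynomial]
    linear_combination (-C (C (c.u : ℚ)) ^ 5 * C X * Y) * h1 - C (C (c.u : ℚ)) ^ 3 * Y * h3 +
      C (C (c.u : ℚ)) ^ 4 * C X ^ 2 * h2 + C (C (c.u : ℚ)) ^ 2 * C X * h4 + h6
  have h' : Ideal.span {(c • E).toAffine.polynomial} =
      (Ideal.span {E.toAffine.polynomial}).map (σ : ℚ[X][Y] →+* ℚ[X][Y]) := by
    rw [Ideal.map_span, Set.image_singleton]
    exact ((congrArg (fun x => Ideal.span {x}) h).trans
      (Ideal.span_singleton_mul_left_unit ((hu.map C).pow 6) _)).symm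
  let τ : E.toAffine.FunctionField ≃+* (c • E).toAffine.FunctionField :=
    IsFractionRing.ringEquivOfRingEquiv (A := E.toAffine.CoordinateRing)
      (B := (c • E).toAffine.CoordinateRing) (Ideal.quotientEquiv _ _ σ.toRingEquiv h')
  exact ⟨AlgEquiv.ofRingEquiv (f := τ.symm) fun x => τ.symm.toRingHom.map_rat_algebraMap x⟩

end Pool.Agent.MP_b2c033_nt.U
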