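import Pool.Agent.MP_b2c033_nt.U.AvF

/-! Linearity of the averages, independence at coprime levels, and the law of the valuation of
the denominator of a cusp. -/

namespace Pool.Agent.MP_b2c033_nt.U

open CongruenceSubgroup
open scoped MatrixGroups

noncomputable section

section Linear

variable {X : Type} [AddCommMonoid X] [Module ℝ X] (H : Subgroup SZ) {L : ℕ}

theorem Av_congr (hL : 0 < L) {Φ Ψ : SZ → X} (h : ∀ γ ∈ H, Φ γ = Ψ γ) :
    Av H L Φ = Av H L Ψ := by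
  obtain ⟨s, hs, hav⟩ := AvAux.fin H L hL
  rw [hav, hav, Finset.sum_congr rfl fun γ hγ => h γ (hs.mem γ hγ)]

theorem Av_const (hL : 0 < L) (x : X) : Av H L (fun _ => x) = x := by
  obtain ⟨s, hs, hav⟩ := AvAux.fin H L hL
  have : (s.card : ℝ) ≠ 0 := by exact_mod_cast hs.nonempty.card_pos.ne'
  rw [hav, Finset.sum_const, ← Nat.cast_smul_eq_nsmul ℝ, smul_smul, inv_mul_cancel₀ this,
    one_smul]

theorem Av_add (hL : 0 < L) (Φ Ψ : SZ → X) :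
    Av H L (fun γ => Φ γ + Ψ γ) = Av H L Φ + Av H L Ψ := by
  obtain ⟨s, -, hav⟩ := AvAux.fin H L hL
  rw [hav, hav, hav, Finset.sum_add_distrib, smul_add]

theorem Av_smul (hL : 0 < L) (r : ℝ) (Φ : SZ → X) :
    Av H L (fun γ => r • Φ γ) = r • Av H L Φ := by
  obtain ⟨s, -, hav⟩ := AvAux.fin H L hL
  rw [hav, hav, ← Finset.smul_sum, smul_comm]

theorem Av_sum (hL : 0 < L) {ι : Type} (t : Finset ι) (Φ : ι → SZ → X) :
    Av H L (fun γ => ∑ i ∈ t, Φ i γ) = ∑ i ∈ t, Av H L (Φ i) := by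
  obtain ⟨s, -, hav⟩ := AvAux.fin H L hL
  simp only [hav]
  rw [Finset.sum_comm, Finset.smul_sum]

theorem Av_map {Y : Type} [AddCommMonoid Y] [Module ℝ Y] (hL : 0 < L) (f : X →ₗ[ℝ] Y)
    (Φ : SZ → X) : Av H L (fun γ => f (Φ γ)) = f (Av H L Φ) := by
  obtain ⟨s, -, hav⟩ := AvAux.fin H L hL
  rw [hav, hav, map_smul, map_sum]

theorem Av_mul_left (hL : 0 < L) (r : ℝ) (Φ : SZ → ℝ) :
    Av H L (fun γ => r * Φ γ) = r * Av H L Φ := Av_smul H hL r Φ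

theorem Av_mul_right (hL : 0 < L) (r : ℝ) (Φ : SZ → ℝ) :
    Av H L (fun γ => Φ γ * r) = Av H L Φ * r := by
  simp only [mul_comm _ r]
  exact Av_mul_left H hL r Φ

theorem Av_mono (hL : 0 < L) {Φ Ψ : SZ → ℝ} (h : ∀ γ ∈ H, Φ γ ≤ Ψ γ) :
    Av H L Φ ≤ Av H L Ψ := by
  obtain ⟨s, hs, hav⟩ := AvAux.fin H L hL
  rw [hav, hav, smul_eq_mul, smul_eq_mul]
  exact mul_le_mul_of_nonneg_left (Finset.sum_le_sum fun γ hγ => h γ (hs.mem γ hγ))
    (by positivity)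

theorem Av_nonneg (hL : 0 < L) {Φ : SZ → ℝ} (h : ∀ γ ∈ H, 0 ≤ Φ γ) : 0 ≤ Av H L Φ := by
  have := Av_mono H hL (Φ := fun _ => 0) h
  rwa [Av_const H hL] at this

end Linear

theorem Lev.mono {X : Type} {L L' : ℕ} {Φ : SZ → X} (h : Lev L Φ) (hd : L ∣ L') : Lev L' Φ :=
  fun γ δ hδ => h γ δ (AvAux.mono hd hδ)

theorem Lev.left {X : Type} {L : ℕ} {Φ : SZ → X} (h : Lev L Φ) (δ γ : SZ) (hδ : δ ∈ Gamma L) :
    Φ (δ * γ) = Φ γ := by
  rw [← h γ (γ⁻¹ * δ * γ) (by simpa using (Gamma_normal L).conj_mem δ hδ γ⁻¹)]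
  simp [mul_assoc]

theorem Lev.prod {ι : Type} {L : ℕ} (s : Finset ι) {Φ : ι → SZ → ℝ} (h : ∀ i ∈ s, Lev L (Φ i)) :
    Lev L fun γ => ∏ i ∈ s, Φ i γ :=
  fun γ δ hδ => Finset.prod_congr rfl fun i hi => h i hi γ δ hδ

/-- a function of the residues of the entries has level `L` -/
theorem modEq_mul_Gamma {L : ℕ} (γ δ : SZ) (hδ : δ ∈ Gamma L) :
    (γ * δ) 0 0 ≡ γ 0 0 [ZMOD L] ∧ (γ * δ) 0 1 ≡ γ 0 1 [ZMOD L] ∧
      (γ * δ) 1 0 ≡ γ 1 0 [ZMOD L] ∧ (γ * δ) 1 1 ≡ γ 1 1 [ZMOD L] :=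
  (AvAux.inv_mul_mem L γ (γ * δ)).1 (by rwa [inv_mul_cancel_left])

/-- independence at coprime levels -/
theorem Av_ind {A B : ℕ} (hA : 0 < A) (hB : 0 < B) (hAB : A.Coprime B) {Φ Ψ : SZ → ℝ}
    (hΦ : Lev A Φ) (hΨ : Lev B Ψ) :
    Av ⊤ (A * B) (fun γ => Φ γ * Ψ γ) = Av ⊤ A Φ * Av ⊤ B Ψ := by
  have hL : 0 < A * B := by positivity
  have h := AvAux.split A B 1 (fun γ => Φ γ * Ψ γ) hA hB one_pos hAB (Nat.coprime_one_right B)
    (fun γ δ hδ => by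
      rw [mul_one] at hδ
      simp only
      rw [hΦ γ δ (AvAux.mono (dvd_mul_right A B) hδ), hΨ γ δ (AvAux.mono (dvd_mul_left B A) hδ)])
  rw [Gamma_one_top, mul_one, mul_one, mul_one] at h
  rw [h, ← AvAux.drop A B Ψ hA hB hAB hΨ, ← Av_mul_left _ hL]
  apply Av_congr _ hL
  intro γ hγ
  rw [← AvAux.drop B A Φ hB hA hAB.symm hΦ, mul_comm B A, ← Av_mul_right _ hL]
  apply Av_congr _ hL
  intro γ' hγ'
  rw [hΦ.left γ γ' hγ, hΨ γ γ' hγ']

/-- independence, at any common level -/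
theorem Av_ind' {A B L : ℕ} (hL : 0 < L) (hA : A ∣ L) (hB : B ∣ L) (hAB : A.Coprime B)
    {Φ Ψ : SZ → ℝ} (hΦ : Lev A Φ) (hΨ : Lev B Ψ) :
    Av ⊤ L (fun γ => Φ γ * Ψ γ) = Av ⊤ L Φ * Av ⊤ L Ψ := by
  rw [AvAux.lev ⊤ A L Φ hL hA hΦ, AvAux.lev ⊤ B L Ψ hL hB hΨ,
    ← Av_ind (Nat.pos_of_dvd_of_pos hA hL) (Nat.pos_of_dvd_of_pos hB hL) hAB hΦ hΨ]
  apply AvAux.lev ⊤ _ _ _ hL (hAB.mul_dvd_of_dvd_of_dvd hA hB)
  intro γ δ hδ
  simp only
  rw [hΦ γ δ (AvAux.mono (dvd_mul_right A B) hδ), hΨ γ δ (AvAux.mono (dvd_mul_left B A) hδ)]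

/-- independence of finitely many functions of pairwise coprime levels -/
theorem Av_prod {ι : Type} (s : Finset ι) (q : ι → ℕ) {L : ℕ} (hL : 0 < L)
    (hq : ∀ i ∈ s, q i ∣ L) (hc : ∀ i ∈ s, ∀ j ∈ s, i ≠ j → (q i).Coprime (q j))
    (Φ : ι → SZ → ℝ) (hΦ : ∀ i ∈ s, Lev (q i) (Φ i)) :
    Av ⊤ L (fun γ => ∏ i ∈ s, Φ i γ) = ∏ i ∈ s, Av ⊤ (q i) (Φ i) := by
  classical
  induction s using Finset.induction_on with
  | empty => simpa using Av_const ⊤ hL (1 : ℝ)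
  | insert a s ha ih =>
    have hm : ∀ i ∈ s, i ∈ insert a s := fun i hi => Finset.mem_insert_of_mem hi
    have hm' : a ∈ insert a s := Finset.mem_insert_self a s
    simp only [Finset.prod_insert ha]
    have hd : ∏ i ∈ s, q i ∣ L := Finset.prod_dvd_of_isRelPrime
      (fun i hi j hj hij => Nat.coprime_iff_isRelPrime.1 (hc i (hm i hi) j (hm j hj) hij))
      fun i hi => hq i (hm i hi)
    rw [Av_ind' hL (hq a hm') hd
      (Nat.Coprime.prod_right fun i hi => hc a hm' i (hm i hi) fun e => ha (e ▸ hi)) (hΦ a hm')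
      (Lev.prod s fun i hi => (hΦ i (hm i hi)).mono (Finset.dvd_prod_of_mem q hi)),
      ih (fun i hi => hq i (hm i hi)) (fun i hi j hj => hc i (hm i hi) j (hm j hj))
        fun i hi => hΦ i (hm i hi), AvAux.lev ⊤ _ _ _ hL (hq a hm') (hΦ a hm')]

/-- independence over a finite set of primes -/
theorem Av_prod_primes (s : Finset ℕ) (hs : ∀ p ∈ s, p.Prime) (k : ℕ → ℕ) {L : ℕ} (hL : 0 < L)
    (hq : ∀ p ∈ s, p ^ k p ∣ L) (Φ : ℕ → SZ → ℝ) (hΦ : ∀ p ∈ s, Lev (p ^ k p) (Φ p)) :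
    Av ⊤ L (fun γ => ∏ p ∈ s, Φ p γ) = ∏ p ∈ s, Av ⊤ (p ^ k p) (Φ p) :=
  Av_prod s (fun p => p ^ k p) hL hq
    (fun i hi j hj hij => Nat.coprime_pow_primes _ _ (hs i hi) (hs j hj) hij) Φ hΦ

/-! ## The truncated valuation -/

/-- the largest `j ≤ k` with `p ^ j ∣ c` -/
def jv (p k : ℕ) (c : ℤ) : ℕ := if c = 0 then k else min k (padicValInt p c)

theorem jv_le (p k : ℕ) (c : ℤ) : jv p k c ≤ k := by
  unfold jv
  split_ifs
  · exact le_rfl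
  · exact min_le_left _ _

theorem le_jv {p : ℕ} (hp : p.Prime) {n k : ℕ} (hn : n ≤ k) (c : ℤ) :
    n ≤ jv p k c ↔ (p : ℤ) ^ n ∣ c := by
  have := Fact.mk hp
  unfold jv
  split_ifs with h
  · simp [h, hn]
  · rw [padicValInt_dvd_iff]
    simp [h, hn]

theorem jv_congr {p : ℕ} (hp : p.Prime) {k : ℕ} {c c' : ℤ}
    (h : ∀ n ≤ k, (p : ℤ) ^ n ∣ c ↔ (p : ℤ) ^ n ∣ c') : jv p k c = jv p k c' := by
  apply le_antisymm
  · exact (le_jv hp (jv_le p k c) c').2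
      ((h _ (jv_le p k c)).1 ((le_jv hp (jv_le p k c) c).1 le_rfl))
  · exact (le_jv hp (jv_le p k c') c).2
      ((h _ (jv_le p k c')).2 ((le_jv hp (jv_le p k c') c').1 le_rfl))

theorem jv_modEq {p : ℕ} (hp : p.Prime) {k : ℕ} {c c' : ℤ} (h : c ≡ c' [ZMOD (p ^ k : ℕ)]) :
    jv p k c = jv p k c' := by
  apply jv_congr hp
  intro n hn
  have h1 : (p : ℤ) ^ n ∣ c' - c := (pow_dvd_pow (p : ℤ) hn).trans (by exact_mod_cast h.dvd)
  constructor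
  · intro h2
    simpa using h1.add h2
  · intro h2
    simpa using h2.sub h1

theorem jv_eq_gcd {p : ℕ} (hp : p.Prime) {L : ℕ} (hL : 0 < L) (c : ℤ) :
    (Int.gcd c L).factorization p = jv p (L.factorization p) c := by
  have hg : Int.gcd c L ≠ 0 := by
    rw [Ne, Int.gcd_eq_zero_iff]
    rintro ⟨-, h⟩
    exact hL.ne' (by exact_mod_cast h)
  have key : ∀ n, n ≤ (Int.gcd c L).factorization p ↔ n ≤ jv p (L.factorization p) c := by
    intro n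
    rw [← hp.pow_dvd_iff_le_factorization hg, ← Int.natCast_dvd_natCast, Int.dvd_coe_gcd_iff,
      Int.natCast_dvd_natCast, hp.pow_dvd_iff_le_factorization hL.ne']
    push_cast
    constructor
    · rintro ⟨h1, h2⟩
      exact (le_jv hp h2 c).2 h1
    · intro h
      have h2 := h.trans (jv_le _ _ _)
      exact ⟨(le_jv hp h2 c).1 h, h2⟩
  exact le_antisymm ((key _).1 le_rfl) ((key _).2 le_rfl)

theorem lev_jv {X : Type} {p : ℕ} (hp : p.Prime) (k : ℕ) (f : ℕ → X) :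
    Lev (p ^ k) fun γ => f (jv p k (γ 1 0)) := fun γ δ hδ => by
  simp only
  rw [jv_modEq hp (modEq_mul_Gamma γ δ hδ).2.2.1]

theorem lev_jv' {X : Type} {p : ℕ} (hp : p.Prime) (k : ℕ) (f : ℕ → X) :
    Lev (p ^ k) fun γ => f (jv p k (γ 0 0)) := fun γ δ hδ => by
  simp only
  rw [jv_modEq hp (modEq_mul_Gamma γ δ hδ).1]

theorem tele_jv {p : ℕ} (hp : p.Prime) (k : ℕ) (f : ℕ → ℝ) (c : ℤ) :
    f (jv p k c) = f 0 + ∑ n ∈ Finset.range k,
      (f (n + 1) - f n) * if (p : ℤ) ^ (n + 1) ∣ c then (1 : ℝ) else 0 := by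
  have h1 : ∑ n ∈ Finset.range (jv p k c), (f (n + 1) - f n) = f (jv p k c) - f 0 :=
    Finset.sum_range_sub f _
  have h2 : ∑ n ∈ Finset.range k, (f (n + 1) - f n) * (if (p : ℤ) ^ (n + 1) ∣ c then (1 : ℝ) else 0)
      = ∑ n ∈ Finset.range (jv p k c), (f (n + 1) - f n) := by
    rw [← Finset.sum_subset (Finset.range_subset_range.2 (jv_le p k c))]
    · apply Finset.sum_congr rfl
      intro n hn
      rw [Finset.mem_range] at hn
      rw [if_pos ((le_jv hp (hn.trans_le (jv_le p k c)) c).1 hn), mul_one]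
    · intro n hn hn'
      rw [Finset.mem_range] at hn hn'
      rw [if_neg (fun h => hn' ((le_jv hp hn c).2 h)), mul_zero]
  rw [h2, h1]
  ring

theorem lev_dvd {p n : ℕ} (i : Fin 2) :
    Lev (p ^ n) fun γ : SZ => if (p : ℤ) ^ n ∣ γ i 0 then (1 : ℝ) else 0 := by
  intro γ δ hδ
  have h : (γ * δ) i 0 ≡ γ i 0 [ZMOD (p ^ n : ℕ)] := by
    obtain ⟨h0, -, h1, -⟩ := modEq_mul_Gamma γ δ hδ
    fin_cases i
    · exact h0
    · exact h1
  have h1 : (p : ℤ) ^ n ∣ γ i 0 - (γ * δ) i 0 := by exact_mod_cast h.dvd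
  refine if_congr ⟨fun h2 => ?_, fun h2 => ?_⟩ rfl rfl
  · simpa only [sub_add_cancel] using h1.add h2
  · simpa only [sub_sub_cancel] using h2.sub h1

/-- the law of the truncated valuation of an entry of the first column -/
theorem Av_jv {p : ℕ} (hp : p.Prime) (k : ℕ) (f : ℕ → ℝ) (i : Fin 2) {L : ℕ} (hL : 0 < L)
    (hd : p ^ k ∣ L) : Av ⊤ L (fun γ => f (jv p k (γ i 0))) =
      f 0 + ∑ n ∈ Finset.range k, (f (n + 1) - f n) / ((p : ℝ) ^ n * (p + 1)) := by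
  rw [Av_congr ⊤ hL fun γ _ => tele_jv hp k f (γ i 0), Av_add ⊤ hL, Av_const ⊤ hL, Av_sum ⊤ hL]
  congr 1
  apply Finset.sum_congr rfl
  intro n hn
  rw [Finset.mem_range] at hn
  rw [Av_mul_left ⊤ hL, AvAux.lev ⊤ (p ^ (n + 1)) L _ hL ((pow_dvd_pow p hn).trans hd) (lev_dvd i)]
  obtain ⟨h1, h2⟩ := AvAux.prob p (n + 1) hp (by omega)
  rw [Nat.add_sub_cancel] at h1 h2
  fin_cases i
  · exact (congrArg _ h2).trans (mul_one_div _ _)
  · exact (congrArg _ h1).trans (mul_one_div _ _)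

/-- independence of the valuations of the denominator -/
theorem Av_prod_jv (s : Finset ℕ) (hs : ∀ p ∈ s, p.Prime) (k : ℕ → ℕ) {L : ℕ} (hL : 0 < L)
    (hq : ∀ p ∈ s, p ^ k p ∣ L) (f : ℕ → ℕ → ℝ) :
    Av ⊤ L (fun γ => ∏ p ∈ s, f p (jv p (k p) (γ 1 0))) = ∏ p ∈ s, (f p 0 +
      ∑ n ∈ Finset.range (k p), (f p (n + 1) - f p n) / ((p : ℝ) ^ n * (p + 1))) := by
  rw [Av_prod_primes s hs k hL hq _ fun p hp => lev_jv (hs p hp) (k p) (f p)]
  exact Finset.prod_congr rfl fun p hp =>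
    Av_jv (hs p hp) (k p) (f p) 1 (pow_pos (hs p hp).pos _) dvd_rfl

/-- the height only depends on the truncated valuation -/
theorem ht_eq {p : ℕ} {k i : ℕ} (h : i ≤ k) (c : ℤ) :
    ht p c i = min (i : ℤ) (2 * jv p k c - i) := by
  unfold ht jv
  split_ifs with hc
  · omega
  · omega

end

end Pool.Agent.MP_b2c033_nt.U
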