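import Pool.Agent.MP_b2c033_nt.U.Spec

/-! The two lists of curves that the finite check leaves. -/

namespace Pool.Agent.MP_b2c033_nt.U

/-- curves with an explicit parametrization at the conductor -/
def posL : List (ℤ × ℤ × ℤ × ℤ × ℤ) :=
  [(0,-1,1,0,0), (1,0,1,-1,0), (1,0,1,-11,12), (1,1,1,-5,2), (1,1,1,0,0), (1,-1,1,-1,0),
   (0,1,1,1,0), (0,1,0,-1,0), (0,1,0,4,4), (1,0,0,1,0), (0,-1,0,-4,4), (0,-1,0,1,0),
   (0,0,1,0,0), (0,0,0,-1,0), (0,0,0,-11,-14), (0,0,0,-11,14), (0,0,0,4,0), (0,0,0,0,1),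
   (0,0,0,-2,1), (0,1,0,-24,36), (0,1,0,-4,-4), (0,1,0,1,0), (1,-1,0,-2,-1), (0,0,0,-4,0),
   (0,0,0,1,0), (0,-1,0,-1,0), (0,0,0,-2,-1), (0,0,0,0,-1)]

/-- curves with at most two rational torsion points -/
def torL : List (ℤ × ℤ × ℤ × ℤ × ℤ) :=
  [(0,1,0,-64,-220), (0,-1,0,4,-4), (0,-1,0,-4,-2), (0,-1,0,3,-3), (0,1,0,-4,2), (0,1,0,3,3),
   (0,-1,0,-3,-1), (0,1,0,-3,1), (0,0,0,-2,0), (0,0,0,2,0), (0,-1,0,-3,2)]

lemma cond_posL : posL.map (fun l => cond (mkW l)) = [11, 14, 14, 15, 15, 17, 19, 20, 20, 21, 24,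
    24, 27, 32, 32, 32, 32, 36, 40, 48, 48, 48, 49, 64, 64, 80, 80, 144] := by
  decide +kernel

end Pool.Agent.MP_b2c033_nt.U
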