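import Pool.Agent.MP_b2c033_nt.U.Top
import Pool.Agent.MP_b2c033_nt.U.AvF
import Pool.Agent.MP_b2c033_nt.U.Avoid
import Pool.Agent.MP_b2c033_nt.U.Var
import Pool.Agent.MP_b2c033_nt.U.FE
import Pool.Agent.MP_b2c033_nt.U.Lat
import Pool.Agent.MP_b2c033_nt.U.ValN
import Pool.Agent.MP_b2c033_nt.U.NoTors
import Pool.Agent.MP_b2c033_nt.UA.All
import Pool.Agent.MP_b2c033_nt.UB.EAll
import Pool.Agent.MP_b2c033_nt.UB.Par
import Pool.Agent.MP_b2c033_nt.UB.Desc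
import Pool.Agent.MP_b2c033_nt.UH.All
import Pool.Agent.MP_b2c033_nt.UN.Asm
import Pool.Agent.MP_b2c033_nt.UL.Asm
import Pool.Agent.MP_b2c033_nt.UT.All
import Pool.Agent.MP_b2c033_nt.UP.Pos
import Pool.Agent.MP_b2c033_nt.UC.Ch2.All

/-! The level theorem. -/

namespace Pool.Agent.MP_b2c033_nt.U

theorem goal : Goal :=
  goal_of s_Var (param_min avFacts s_Real s_Val s_Horo s_Gal0 s_Gal1 s_Deg s_FE s_Lat s_Vol s_Ev
    s_par s_Avoid s_Three s_Tors s_Desc s_Hon s_Ap s_New UL.s_Ord UL.s_HoroB s_ValN s_Tree s_Check2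
    s_noTors s_Pos)

end Pool.Agent.MP_b2c033_nt.U
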