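import Pool.Agent.MP_b2c033_nt.U.Spec

/-! The finite check in the form that is used. -/

namespace Pool.Agent.MP_b2c033_nt.U

/-- C: nothing has to be checked for the curves in `pos` -/
def S_Check2 (pos tor : List (ℤ × ℤ × ℤ × ℤ × ℤ)) : Prop :=
  ∀ (W : WeierstrassCurve ℤ) (Ω ρ : ℝ) (N : ℕ) (b : ℕ → ℤ), RedMin W → ApFacts W → Vol W Ω →
    Coef N b → Link W N b → FE N b → HoroB N b ρ → Mtot N (fun _ => 0) ≤ 1 / 6 →
    3 * (hyp W N : ℝ) ^ 2 * ρ ≤ Ω * (Mtot N (smN N) : ℚ) →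
    W ∈ pos.map mkW ∨ (N = cond W ∧ ∀ n : ℕ, (n = 3 ∧ W ∉ tor.map mkW) ∨ n = 4 →
      Multi W N b Ω ρ n (smN N) → (N = 256 → INV b ∨ Multi W N b Ω ρ n fun _ => 2) → False)

end Pool.Agent.MP_b2c033_nt.U
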