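import Pool.Agent.MP_b2c033_nt.U.Spec2

/-! Assembly of the blocks. -/

namespace Pool.Agent.MP_b2c033_nt.U

open UpperHalfPlane hiding I
open WeierstrassCurve CongruenceSubgroup Polynomial
open scoped Polynomial.Bivariate

lemma massLe_smul {V : Type} [NormedAddCommGroup V] [InnerProductSpace ℂ V] (C : CS V) {X : V}
    {m : ℝ} {k : ℂ} (hk : k ≠ 0) (h : C.MassLe X m) : C.MassLe (k • X) m := by
  obtain ⟨L, o, hL, ho, hs, hm⟩ := h
  refine ⟨L, o, hL, ho, fun γ => ?_, hm⟩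
  obtain ⟨ν, h1, h2⟩ := hs γ
  refine ⟨ν, h1, ?_⟩
  rw [map_smul, map_smul, smul_eq_mul]
  exact mul_ne_zero hk h2

lemma hyp_pos (W : WeierstrassCurve ℤ) (N : ℕ) : 0 < hyp W N :=
  Finset.prod_pos fun _ hp => (Nat.prime_of_mem_primeFactors (Finset.mem_filter.1 hp).1).pos

lemma key_ineq {n h ρ Ω m x K : ℝ} (hρ : 0 ≤ ρ) (hΩ : 0 < Ω) (hx : 0 < x)
    (h1 : n * (h ^ 2 * x) ≤ Ω * m) (h2 : m * ρ ≤ K * x) : n * h ^ 2 * ρ ≤ Ω * K := by
  have h3 : n * (h ^ 2 * x) * ρ ≤ Ω * m * ρ := mul_le_mul_of_nonneg_right h1 hρ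
  have h4 : Ω * (m * ρ) ≤ Ω * (K * x) := mul_le_mul_of_nonneg_left h2 hΩ.le
  have h5 : n * h ^ 2 * ρ * x ≤ Ω * K * x := by nlinarith
  exact le_of_mul_le_mul_right h5 hx

theorem param_min {pos tor : List (ℤ × ℤ × ℤ × ℤ × ℤ)} (hAv : S_Av) (hReal : S_Real)
    (hVal : S_Val) (hHoro : S_Horo) (hGal0 : S_Gal0) (hGal1 : S_Gal1) (hDeg : S_Deg) (hFE : S_FE)
    (hLat : S_Lat) (hVol : S_Vol) (hEv : S_Ev) (hPar : S_Par) (hAvoid : S_Avoid)
    (hThree : S_Three) (hTors : S_Tors) (hDesc : S_Desc) (hHon : S_Hon) (hAp : S_Ap)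
    (hNew : S_New) (hOrd : S_Ord) (hHoroB : S_HoroB) (hValN : S_ValN) (hTree : S_Tree)
    (hCheck : S_Check2 pos tor) (hNoTors : S_NoTors tor) (hPos : S_Pos pos)
    (W : WeierstrassCurve ℤ) (M : ℕ) (hW : RedMin W) (hM : 0 < M) (hP : Param (toQ W) M) :
    Param (toQ W) (cond W) := by
  classical
  obtain ⟨V, _, _, C, ι, φ, hR⟩ := hReal
  have hG : C.Good := ⟨hAv, hVal V C ι φ hAv hR, hHoro V C ι φ hAv hR, hGal0 V C ι φ hAv hR,
    hGal1 V C ι φ hAv hR⟩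
  obtain ⟨L, hL⟩ := hLat W hW.ne
  obtain ⟨F, w₀, P₁, Q₁, P₂, Q₂, u, v, Fu, Fv, hD, hGen, hu, hv, hiso, hT1, hT2⟩ :=
    hPar hEv V C ι φ hAv hR W L M hW.ne hL hM hP
  have hA := hAp W hW.ne
  obtain ⟨N, g, b, c, hNF, hLink, hc, hc0, hF⟩ :=
    hNew V C hG W (lat L) M F hA (hHon V C ι φ hAv hR W L hW hL) hD
  obtain ⟨hOA, hOB, hO256⟩ := hOrd V C hG N g b hNF
  obtain ⟨hfe, hinv⟩ := hFE V C ι φ hAv hR N g b hNF
  have hV := hVol W L hW.ne hL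
  have hh : (hyp W N : ℂ) ≠ 0 := by exact_mod_cast (hyp_pos W N).ne'
  have hX : 0 < ‖C.comb g c‖ ^ 2 := by
    have : C.comb g c ≠ 0 := fun h => hD.ne (by rw [hF, h, smul_zero])
    positivity
  have hnF : ‖F‖ ^ 2 = (hyp W N : ℝ) ^ 2 * ‖C.comb g c‖ ^ 2 := by
    rw [hF, norm_smul, mul_pow, Complex.norm_natCast]
  -- the degree inequality for a set of bad points
  have hdeg : ∀ (S : Finset ℂ) (m : ℝ), Ineq L S →
      (∀ s ∈ S, Bad W L P₁ Q₁ s ∨ Bad W L P₂ Q₂ s) → C.MassLe (C.comb g c) m →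
      S.card * ((hyp W N : ℝ) ^ 2 * ‖C.comb g c‖ ^ 2) ≤ covol L * m := by
    intro S m hS hB hm
    have hinj : Function.Injective fun s : ℂ => s - w₀ := sub_left_injective
    have := hDeg V C ι φ hAv hR L M F (S.image fun s => s - w₀) m hD ?_ ?_
      (by rw [hF]; exact massLe_smul C hh hm)
    · rwa [Finset.card_image_of_injective _ hinj, hnF] at this
    · intro s' hs' t' ht' hst
      obtain ⟨s, hs, rfl⟩ := Finset.mem_image.1 hs'
      obtain ⟨t, ht, rfl⟩ := Finset.mem_image.1 ht'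
      rw [sub_sub_sub_cancel_right] at hst
      rw [hS s hs t ht hst]
    · intro z s' hs'
      obtain ⟨s, hs, rfl⟩ := Finset.mem_image.1 hs'
      have e : φ F z - (s - w₀) = φ F z + w₀ - s := by ring
      rw [e]
      rcases hB s hs with h | h
      · exact hAvoid hEv V C ι φ hAv hR W L M F w₀ P₁ Q₁ u Fu hW.ne hL hD.ne hGen.p₁ hGen.q₁ hu
          hT1 s h z
      · exact hAvoid hEv V C ι φ hAv hR W L M F w₀ P₂ Q₂ v Fv hW.ne hL hD.ne hGen.p₂ hGen.q₂ hv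
          hT2 s h z
  obtain ⟨S₃, hS₃, hc₃, hB₃⟩ := hThree hEv W L P₁ Q₁ P₂ Q₂ hW.ne hL hGen
  -- the number of bad points that is used
  obtain ⟨S, hS, hB, hn⟩ : ∃ S : Finset ℂ, Ineq L S ∧
      (∀ s ∈ S, Bad W L P₁ Q₁ s ∨ Bad W L P₂ Q₂ s) ∧
      ((S.card = 3 ∧ W ∉ tor.map mkW) ∨ S.card = 4) := by
    by_cases hall : ∀ s, Bad W L P₁ Q₁ s ∨ Bad W L P₂ Q₂ s → ∃ t ∈ S₃, s - t ∈ lat L
    · refine ⟨S₃, hS₃, hB₃, Or.inl ⟨hc₃, fun hm => ?_⟩⟩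
      obtain ⟨l, hl, rfl⟩ := List.mem_map.1 hm
      exact hNoTors l hl (hTors hEv _ L P₁ Q₁ P₂ Q₂ S₃ hW.ne hL hGen hS₃ hc₃ hB₃ hall)
    · push Not at hall
      obtain ⟨s, hs, hs'⟩ := hall
      have hnot : s ∉ S₃ := fun h => hs' s h (by rw [sub_self]; exact zero_mem _)
      refine ⟨insert s S₃, ?_, ?_, Or.inr (by rw [Finset.card_insert_of_notMem hnot, hc₃])⟩
      · intro x hx' y hy' hxy
        rcases Finset.mem_insert.1 hx' with rfl | hx <;>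
          rcases Finset.mem_insert.1 hy' with rfl | hy
        · rfl
        · exact absurd hxy (hs' y hy)
        · exact absurd (by simpa using neg_mem hxy) (hs' x hx)
        · exact hS₃ x hx y hy hxy
      · intro x hx'
        rcases Finset.mem_insert.1 hx' with rfl | hx
        · exact hs
        · exact hB₃ x hx
  have hρ : (0 : ℝ) ≤ ‖g‖ ^ 2 := by positivity
  have hdesc : Single C g (C.comb g c) → Param (toQ W) N := fun h =>
    hDesc hEv V C ι φ hAv hR W L M N F g w₀ P₁ Q₁ P₂ Q₂ u v Fu Fv (hyp W N) hW.ne hL hD hGen hu hv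
      hiso hT1 hT2 hNF.coef.pos hNF.fix ⟨_, h, hF⟩
  have htree : ∀ s, OrdB C N g s → 3 * (hyp W N : ℝ) ^ 2 * ‖g‖ ^ 2 ≤ covol L * (Mtot N s : ℚ) ∧
      (Single C g (C.comb g c) ∨ Multi W N b (covol L) (‖g‖ ^ 2) S.card s) := by
    intro s hs
    obtain ⟨m, hm, h1, h2⟩ := hTree V C hG N g b s c hNF hOA hs hc hc0
    refine ⟨key_ineq hρ hV.pos hX ?_ h1, h2.imp id ?_⟩
    · have := hdeg S₃ m hS₃ hB₃ hm
      rw [hc₃] at this
      exact_mod_cast this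
    · rintro ⟨p, hp, h2⟩
      exact ⟨p, hp, key_ineq hρ hV.pos hX (hdeg S m hS hB hm) h2⟩
  obtain ⟨h3, hsm⟩ := htree _ hOB
  rcases hCheck W (covol L) (‖g‖ ^ 2) N b hW hA hV hNF.coef hLink hfe
    (hHoroB V C hG N g b hNF) (hValN V C hG N g b hNF hOA) h3 with hm | ⟨hN, hpos⟩
  · obtain ⟨l, hl, rfl⟩ := List.mem_map.1 hm
    exact hPos l hl
  by_cases hs : Single C g (C.comb g c)
  · rw [← hN]; exact hdesc hs
  · exact (hpos S.card hn (hsm.resolve_left hs) fun h256 => by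
      by_cases he : C.act eta256 g = g
      · exact Or.inl (hinv he)
      · exact Or.inr ((htree _ (hO256 h256 he)).2.resolve_left hs)).elim

theorem goal_of (hVar : S_Var)
    (h : ∀ (W : WeierstrassCurve ℤ) (M : ℕ), RedMin W → 0 < M → Param (toQ W) M →
      Param (toQ W) (cond W)) : Goal := by
  rintro E N N' ⟨W, c, hW, hc, rfl⟩ hN' ⟨u, v, F, G, hu, hv, ⟨e⟩⟩
  obtain ⟨f⟩ := hVar E c
  rw [hc] at f
  obtain ⟨u', v', F', G', hu', hv', ⟨e'⟩⟩ := h W N' hW hN' ⟨u, v, F, G, hu, hv, ⟨e.trans f.symm⟩⟩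
  exact ⟨u', v', F', G', hu', hv', ⟨e'.trans f⟩⟩

end Pool.Agent.MP_b2c033_nt.U
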